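import Pool.Agent.Y998.CN.Param

/-!
# Comparison of scales
-/

set_option autoImplicit false

namespace Pool.Agent.Helper47K9.SH

open Filter Asymptotics Pool.Agent.Y998.CN

/-- the scale up to which the cycles are homogeneous -/
noncomputable def XX (d : ℕ) (t : ℝ) : ℝ := (t / Real.log t) ^ (((d : ℝ) + 2) / 4)

/-- the scale of the small blocks -/
noncomputable def YS (d : ℕ) (t : ℝ) : ℝ := t ^ (((d : ℝ) + 1) / (d + 2))

theorem XX_sq (d : ℕ) {t : ℝ} (ht : 2 ≤ t) : XX d t ^ 2 * rho d t = t := by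
  have ht0 : 0 < t := by linarith
  have hlog : 0 < Real.log t := Real.log_pos (by linarith)
  unfold XX rho
  rw [← Real.rpow_natCast, ← Real.rpow_mul (by positivity), Real.div_rpow ht0.le hlog.le]
  have e1 : ((d : ℝ) + 2) / 4 * ((2 : ℕ) : ℝ) = 1 + (d : ℝ) / 2 := by
    push_cast
    ring
  rw [e1]
  have h1 : (Real.log t) ^ (1 + (d : ℝ) / 2) ≠ 0 := (Real.rpow_pos_of_pos hlog _).ne'
  have e2 : ∀ a b c : ℝ, b ≠ 0 → a / b * (c * b) = a * c := by
    intro a b c hb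
    field_simp
  rw [e2 _ _ _ h1, ← Real.rpow_add ht0]
  have e3 : 1 + (d : ℝ) / 2 + -((d : ℝ) / 2) = 1 := by ring
  rw [e3, Real.rpow_one]

theorem XX_pos (d : ℕ) {t : ℝ} (ht : 2 ≤ t) : 0 < XX d t := by
  have ht0 : 0 < t := by linarith
  have hlog : 0 < Real.log t := Real.log_pos (by linarith)
  unfold XX
  positivity

theorem asym1 (d : ℕ) (hd : 1 ≤ d) (c : ℝ) (hc : 0 < c) :
    ∀ᶠ t : ℝ in atTop, rho d t * t ^ (1 / ((d : ℝ) + 2)) ≤ c := by
  have hd1 : (1 : ℝ) ≤ d := by exact_mod_cast hd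
  have hs : 0 < (d : ℝ) / 2 - 1 / (d + 2) := by
    rw [sub_pos, div_lt_div_iff₀ (by positivity) (by norm_num)]
    nlinarith
  have h1 := (isLittleO_log_rpow_rpow_atTop (1 + (d : ℝ) / 2) hs).def hc
  filter_upwards [h1, eventually_ge_atTop (2 : ℝ)] with t h2 ht
  have ht0 : 0 < t := by linarith
  have hlog : 0 < Real.log t := Real.log_pos (by linarith)
  rw [Real.norm_of_nonneg (by positivity), Real.norm_of_nonneg (by positivity)] at h2
  unfold rho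
  have e1 : t ^ (-((d : ℝ) / 2)) * Real.log t ^ (1 + (d : ℝ) / 2) * t ^ (1 / ((d : ℝ) + 2)) =
      Real.log t ^ (1 + (d : ℝ) / 2) * t ^ (-((d : ℝ) / 2 - 1 / (d + 2))) := by
    have e2 : -((d : ℝ) / 2 - 1 / (d + 2)) = -((d : ℝ) / 2) + 1 / (d + 2) := by ring
    rw [e2, Real.rpow_add ht0]
    ring
  rw [e1]
  calc Real.log t ^ (1 + (d : ℝ) / 2) * t ^ (-((d : ℝ) / 2 - 1 / (d + 2))) ≤
        c * t ^ ((d : ℝ) / 2 - 1 / (d + 2)) * t ^ (-((d : ℝ) / 2 - 1 / (d + 2))) :=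
        mul_le_mul_of_nonneg_right h2 (by positivity)
    _ = c := by
        rw [mul_assoc, ← Real.rpow_add ht0]
        simp

theorem asym2 (d : ℕ) (hd : 1 ≤ d) (c : ℝ) (hc : 0 < c) :
    ∀ᶠ t : ℝ in atTop, YS d t ≤ c * XX d t := by
  have hd1 : (1 : ℝ) ≤ d := by exact_mod_cast hd
  have hs : 0 < ((d : ℝ) + 2) / 4 - (d + 1) / (d + 2) := by
    rw [sub_pos, div_lt_div_iff₀ (by positivity) (by norm_num)]
    nlinarith
  have h1 := (isLittleO_log_rpow_rpow_atTop (((d : ℝ) + 2) / 4) hs).def hc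
  filter_upwards [h1, eventually_ge_atTop (2 : ℝ)] with t h2 ht
  have ht0 : 0 < t := by linarith
  have hlog : 0 < Real.log t := Real.log_pos (by linarith)
  rw [Real.norm_of_nonneg (by positivity), Real.norm_of_nonneg (by positivity)] at h2
  unfold XX YS
  rw [Real.div_rpow ht0.le hlog.le, ← mul_div_assoc, le_div_iff₀ (by positivity)]
  calc t ^ (((d : ℝ) + 1) / (d + 2)) * Real.log t ^ (((d : ℝ) + 2) / 4) ≤
        t ^ (((d : ℝ) + 1) / (d + 2)) * (c * t ^ (((d : ℝ) + 2) / 4 - (d + 1) / (d + 2))) :=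
        mul_le_mul_of_nonneg_left h2 (by positivity)
    _ = c * (t ^ (((d : ℝ) + 1) / (d + 2)) * t ^ (((d : ℝ) + 2) / 4 - (d + 1) / (d + 2))) := by
        ring
    _ = _ := by
        rw [← Real.rpow_add ht0]
        congr 2
        ring

theorem asym3 (d : ℕ) (hd : 1 ≤ d) (c : ℝ) (hc : 0 < c) :
    ∀ᶠ t : ℝ in atTop, Real.sqrt t ≤ c * YS d t := by
  have hd1 : (1 : ℝ) ≤ d := by exact_mod_cast hd
  have hs : 0 < ((d : ℝ) + 1) / (d + 2) - 1 / 2 := by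
    rw [sub_pos, div_lt_div_iff₀ (by positivity) (by positivity)]
    linarith
  have h1 := (tendsto_rpow_atTop hs).eventually_ge_atTop (1 / c)
  filter_upwards [h1, eventually_ge_atTop (2 : ℝ)] with t h2 ht
  have ht0 : 0 < t := by linarith
  unfold YS
  have e1 : t ^ (((d : ℝ) + 1) / (d + 2)) =
      t ^ (((d : ℝ) + 1) / (d + 2) - 1 / 2) * t ^ ((1 : ℝ) / 2) := by
    rw [← Real.rpow_add ht0]
    congr 1
    ring
  rw [e1, Real.sqrt_eq_rpow]
  have h3 : 1 ≤ c * t ^ (((d : ℝ) + 1) / (d + 2) - 1 / 2) := by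
    rw [div_le_iff₀ hc] at h2
    linarith
  have h4 : 0 ≤ t ^ ((1 : ℝ) / 2) := by positivity
  nlinarith

theorem asym4 (c : ℝ) (hc : 0 < c) : ∀ᶠ t : ℝ in atTop, 1 ≤ c * Real.sqrt t := by
  have h1 := Real.tendsto_sqrt_atTop.eventually_ge_atTop (1 / c)
  filter_upwards [h1] with t h2
  rw [div_le_iff₀ hc] at h2
  linarith

/-- all comparisons of scales -/
theorem asym (d : ℕ) (hd : 1 ≤ d) (c : ℝ) (hc : 0 < c) : ∃ A : ℝ, 4 ≤ A ∧ ∀ t : ℝ, A ≤ t →
    rho d t * t ^ (1 / ((d : ℝ) + 2)) ≤ c ∧ YS d t ≤ c * XX d t ∧ Real.sqrt t ≤ c * YS d t ∧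
    1 ≤ c * Real.sqrt t := by
  obtain ⟨A, hA⟩ := eventually_atTop.1 (((asym1 d hd c hc).and (asym2 d hd c hc)).and
    ((asym3 d hd c hc).and (asym4 c hc)))
  refine ⟨max A 4, le_max_right _ _, fun t ht => ?_⟩
  have h := hA t ((le_max_left _ _).trans ht)
  exact ⟨h.1.1, h.1.2, h.2.1, h.2.2⟩

end Pool.Agent.Helper47K9.SH
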