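import Pool.Agent.Helper47K9.SH.Dens
import Pool.Agent.Y998.LP.Low
import Pool.Agent.Y998.CN.Tor
import Pool.Agent.Y950.CN.PATH
import Pool.Agent.R517.PDL.L5

/-!
# Blocks of the torus
-/

set_option autoImplicit false

namespace Pool.Agent.Helper47K9.SH

open Finset Equiv Pool.Agent.Y998.ST Pool.Agent.Y998.CN
open Pool.Agent.R517.PDS (DR)
open Pool.Agent.R517.PDL (ds nrm)

section torus

variable {d L : ℕ} [NeZero L]

theorem card_tor : (Fintype.card (Fin d → ZMod L) : ℝ) = (L : ℝ) ^ d :=
  Pool.Agent.R517.PDS.card_torus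

/-- comparison of the forms -/
theorem form_blk (hd : 1 ≤ d) {r : ℕ} (hr : 1 ≤ r) (f : ((Fin d → ZMod L) → Fin 2) → ℝ) :
    1 / (16 * d * (r : ℝ) ^ 2) * ∑ x, ∑ y, wt (blk (phi d L) r) x y * DD f x y ≤
      ∑ x, ∑ y, nnRate d L x y * DD f x y := by
  have h := Pool.Agent.Y998.LP.blocks_form Pool.Agent.Y950.CN.t_PATH (phi d L)
    (J := nnRate d L) nn_nonneg nn_adj hd hr _ rfl 2 f
  refine le_trans (le_of_eq ?_) h
  rw [Finset.mul_sum]
  refine Finset.sum_congr rfl fun x _ => ?_
  rw [Finset.mul_sum]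
  refine Finset.sum_congr rfl fun y _ => ?_
  unfold wt
  split_ifs
  · ring
  · ring

theorem blk_eq_iff (l : ℕ) (x y : Fin d → ZMod L) :
    blk (phi d L) l x = blk (phi d L) l y ↔ ∀ k, (x k).val / l = (y k).val / l := by
  constructor
  · intro h k
    have h1 := congrArg Fin.val (congrFun h k)
    have h2 : ((phi d L x k : ℕ) / l) = (phi d L y k : ℕ) / l := h1
    have h3 := co_phi x k
    have h4 := co_phi y k
    unfold co at h3 h4
    rw [h3, h4] at h2
    exact h2
  · intro h
    funext k
    apply Fin.ext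
    have h3 := co_phi x k
    have h4 := co_phi y k
    unfold co at h3 h4
    change ((phi d L x k : ℕ) / l) = (phi d L y k : ℕ) / l
    rw [h3, h4]
    exact h k

/-- bad coordinates -/
def bad (L l : ℕ) [NeZero L] : Finset (ZMod L) :=
  univ.filter fun z => z.val / l ≠ (z + 1).val / l

theorem bad_card {l : ℕ} (hl : 1 ≤ l) : (bad L l).card ≤ L / l + 1 := by
  have h1 : ∀ z ∈ bad L l, z.val + 1 = L ∨ l ∣ z.val + 1 := by
    intro z hz
    unfold bad at hz
    rw [Finset.mem_filter] at hz
    by_contra hcon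
    rw [not_or] at hcon
    have hlt : z.val < L := ZMod.val_lt z
    have hlt' : z.val + 1 < L := by omega
    have h2 : (z + 1).val = z.val + 1 := by
      have e1 : z + 1 = ((z.val + 1 : ℕ) : ZMod L) := by
        push_cast
        rw [ZMod.natCast_zmod_val]
      rw [e1]
      exact ZMod.val_natCast_of_lt hlt'
    apply hz.2
    rw [h2, Nat.succ_div, if_neg hcon.2, add_zero]
  have h2 : (bad L l).card ≤ (Finset.range (L / l + 1)).card := by
    refine Finset.card_le_card_of_injOn (fun z => if l ∣ z.val + 1 then (z.val + 1) / l else 0)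
      ?_ ?_
    · intro z _
      rw [Finset.mem_coe, Finset.mem_range]
      have hlt : z.val < L := ZMod.val_lt z
      simp only
      split_ifs
      · exact Nat.lt_succ_of_le (Nat.div_le_div_right hlt)
      · exact Nat.succ_pos _
    · intro z hz w hw h
      rw [Finset.mem_coe] at hz hw
      simp only at h
      have hz1 := h1 z hz
      have hw1 := h1 w hw
      have hpos : ∀ u : ZMod L, l ∣ u.val + 1 → 1 ≤ (u.val + 1) / l := by
        intro u hu
        exact Nat.div_pos (Nat.le_of_dvd (by omega) hu) (by omega)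
      apply ZMod.val_injective L
      by_cases hzd : l ∣ z.val + 1
      · by_cases hwd : l ∣ w.val + 1
        · rw [if_pos hzd, if_pos hwd] at h
          have e1 := Nat.div_mul_cancel hzd
          have e2 := Nat.div_mul_cancel hwd
          rw [h, e2] at e1
          omega
        · rw [if_pos hzd, if_neg hwd] at h
          have := hpos z hzd
          omega
      · by_cases hwd : l ∣ w.val + 1
        · rw [if_neg hzd, if_pos hwd] at h
          have := hpos w hwd
          omega
        · have e1 : z.val + 1 = L := hz1.resolve_right hzd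
          have e2 : w.val + 1 = L := hw1.resolve_right hwd
          omega
  rwa [Finset.card_range] at h2

theorem sum_coord (F : ZMod L → ℝ) (a : Fin d) :
    (L : ℝ) * ∑ x : Fin d → ZMod L, F (x a) = (L : ℝ) ^ d * ∑ z, F z := by
  have h1 : ∀ z : ZMod L, ∑ x : Fin d → ZMod L, F (x a) = ∑ x : Fin d → ZMod L, F (x a + z) := by
    intro z
    rw [← Equiv.sum_comp (Equiv.addRight (Pi.single a z : Fin d → ZMod L))]
    refine Finset.sum_congr rfl fun x _ => ?_
    simp
  have h2 : (L : ℝ) * ∑ x : Fin d → ZMod L, F (x a) =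
      ∑ _z : ZMod L, ∑ x : Fin d → ZMod L, F (x a) := by
    rw [Finset.sum_const, nsmul_eq_mul, Finset.card_univ, ZMod.card]
  rw [h2, Finset.sum_congr rfl fun z _ => h1 z, Finset.sum_comm]
  have h3 : ∀ x : Fin d → ZMod L, ∑ z, F (x a + z) = ∑ z, F z := by
    intro x
    exact Equiv.sum_comp (Equiv.addLeft (x a)) F
  rw [Finset.sum_congr rfl fun x _ => h3 x, Finset.sum_const, nsmul_eq_mul, Finset.card_univ,
    card_tor]

theorem cross (hL : 3 ≤ L) {l : ℕ} (hl : 1 ≤ l) (hlL : l ≤ L) :
    ∑ x : Fin d → ZMod L, ∑ y, nnRate d L x y *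
      (if blk (phi d L) l x = blk (phi d L) l y then 0 else 1) ≤ 4 * d * (L : ℝ) ^ d / l := by
  classical
  have hLr : (0 : ℝ) < L := by exact_mod_cast (by omega : 0 < L)
  have hlr : (0 : ℝ) < l := by exact_mod_cast hl
  -- one direction
  obtain ⟨up, hup⟩ : ∃ up : Fin d → (Fin d → ZMod L) → (Fin d → ZMod L), up = fun a x =>
    Function.update x a (x a + 1) := ⟨_, rfl⟩
  obtain ⟨cr, hcr⟩ : ∃ cr : (Fin d → ZMod L) → (Fin d → ZMod L) → ℝ, cr = fun x y =>
    if blk (phi d L) l x = blk (phi d L) l y then 0 else 1 := ⟨_, rfl⟩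
  have hcr0 : ∀ x y, 0 ≤ cr x y := fun x y => by rw [hcr]; dsimp only; split_ifs <;> norm_num
  have hcrs : ∀ x y, cr x y = cr y x := fun x y => by
    rw [hcr]
    dsimp only
    by_cases h : blk (phi d L) l x = blk (phi d L) l y
    · rw [if_pos h, if_pos h.symm]
    · rw [if_neg h, if_neg (Ne.symm h)]
  have h1 : ∀ x y, nnRate d L x y * cr x y ≤
      ∑ a, ((if y = up a x then cr x y else 0) + (if x = up a y then cr x y else 0)) := by
    intro x y
    have h0 : ∀ a ∈ (univ : Finset (Fin d)), 0 ≤ ((if y = up a x then cr x y else 0) +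
        (if x = up a y then cr x y else 0)) := by
      intro a _
      have := hcr0 x y
      split_ifs <;> linarith
    unfold nnRate
    by_cases h : ∃ a, y = Function.update x a (x a + 1) ∨ x = Function.update y a (y a + 1)
    · rw [if_pos h, one_mul]
      obtain ⟨a, ha⟩ := h
      refine le_trans ?_ (Finset.single_le_sum h0 (Finset.mem_univ a))
      have := hcr0 x y
      rw [hup]
      dsimp only
      rcases ha with ha | ha
      · rw [if_pos ha]
        split_ifs <;> linarith
      · rw [if_pos ha]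
        split_ifs <;> linarith
    · rw [if_neg h, zero_mul]
      exact Finset.sum_nonneg h0
  have h2 : ∑ x : Fin d → ZMod L, ∑ y, nnRate d L x y * cr x y ≤
      ∑ a : Fin d, 2 * ∑ x, cr x (up a x) := by
    refine (Finset.sum_le_sum fun x _ => Finset.sum_le_sum fun y _ => h1 x y).trans (le_of_eq ?_)
    have e1 : ∑ x, ∑ y, ∑ a, ((if y = up a x then cr x y else 0) +
        (if x = up a y then cr x y else 0)) =
        ∑ a, ((∑ x, ∑ y, if y = up a x then cr x y else 0) +
        ∑ x, ∑ y, if x = up a y then cr x y else 0) := by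
      rw [Finset.sum_congr rfl fun x _ => Finset.sum_comm, Finset.sum_comm]
      refine Finset.sum_congr rfl fun a _ => ?_
      simp only [Finset.sum_add_distrib]
    rw [e1]
    refine Finset.sum_congr rfl fun a _ => ?_
    have e2 : ∑ x, ∑ y, (if y = up a x then cr x y else 0) = ∑ x, cr x (up a x) := by
      refine Finset.sum_congr rfl fun x _ => ?_
      rw [Finset.sum_ite_eq', if_pos (Finset.mem_univ _)]
    have e3 : ∑ x, ∑ y, (if x = up a y then cr x y else 0) = ∑ x, cr x (up a x) := by
      rw [Finset.sum_comm]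
      refine Finset.sum_congr rfl fun x _ => ?_
      rw [Finset.sum_ite_eq', if_pos (Finset.mem_univ _), hcrs]
    rw [e2, e3]
    ring
  have h3 : ∀ (a : Fin d) (x : Fin d → ZMod L), cr x (up a x) ≤
      if x a ∈ bad L l then 1 else 0 := by
    intro a x
    rw [hcr, hup]
    dsimp only
    by_cases h : x a ∈ bad L l
    · rw [if_pos h]
      split_ifs <;> norm_num
    · rw [if_neg h, if_pos]
      rw [blk_eq_iff]
      intro k
      by_cases hk : k = a
      · subst hk
        rw [Function.update_self]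
        unfold bad at h
        rw [Finset.mem_filter, not_and, not_not] at h
        exact h (Finset.mem_univ _)
      · rw [Function.update_of_ne hk]
  have h4 : ∀ a : Fin d, ∑ x, cr x (up a x) ≤ 2 * (L : ℝ) ^ d / l := by
    intro a
    refine (Finset.sum_le_sum fun x _ => h3 a x).trans ?_
    have h5 := sum_coord (d := d) (L := L) (fun z => if z ∈ bad L l then (1 : ℝ) else 0) a
    have h6 : ∑ z : ZMod L, (if z ∈ bad L l then (1 : ℝ) else 0) = ((bad L l).card : ℝ) := by
      rw [Finset.sum_ite_mem, Finset.univ_inter, Finset.sum_const, nsmul_eq_mul, mul_one]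
    rw [h6] at h5
    have h7 : ((bad L l).card : ℝ) ≤ 2 * L / l := by
      have h8 : ((bad L l).card : ℝ) ≤ ((L / l + 1 : ℕ) : ℝ) := by exact_mod_cast bad_card hl
      refine h8.trans ?_
      push_cast
      have h9 : ((L / l : ℕ) : ℝ) ≤ (L : ℝ) / l := Nat.cast_div_le
      have h10 : (1 : ℝ) ≤ L / l := by
        rw [le_div_iff₀ hlr, one_mul]
        exact_mod_cast hlL
      have h11 : 2 * (L : ℝ) / l = L / l + L / l := by ring
      linarith
    obtain ⟨S, hS⟩ : ∃ S : ℝ, S = ∑ x : Fin d → ZMod L, (if x a ∈ bad L l then (1 : ℝ) else 0) :=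
      ⟨_, rfl⟩
    rw [← hS] at h5 ⊢
    have h12 : (L : ℝ) * S ≤ (L : ℝ) * (2 * (L : ℝ) ^ d / l) := by
      rw [h5]
      calc (L : ℝ) ^ d * ((bad L l).card : ℝ) ≤ (L : ℝ) ^ d * (2 * L / l) :=
            mul_le_mul_of_nonneg_left h7 (by positivity)
        _ = _ := by ring
    exact le_of_mul_le_mul_left h12 hLr
  have h5 : ∑ x : Fin d → ZMod L, ∑ y, nnRate d L x y * cr x y ≤ 4 * d * (L : ℝ) ^ d / l := by
    refine h2.trans ?_
    refine (Finset.sum_le_sum fun a _ => mul_le_mul_of_nonneg_left (h4 a) (by norm_num :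
      (0 : ℝ) ≤ 2)).trans (le_of_eq ?_)
    rw [Finset.sum_const, nsmul_eq_mul, Finset.card_univ, Fintype.card_fin]
    ring
  rw [hcr] at h5
  exact h5

/-- a full block -/
theorem card_full {l : ℕ} (hl : 1 ≤ l) (v : Fin d → ZMod L)
    (hv : ∀ k, ((v k).val / l + 1) * l ≤ L) : (bl (blk (phi d L) l) v).card = l ^ d := by
  unfold bl
  rw [← Finset.card_image_of_injective _ (co_inj (phi d L)), ← box_eq (phi d L) hl]
  unfold Pool.Agent.Y998.CN.box
  rw [Fintype.card_piFinset]
  have h1 : ∀ k ∈ (univ : Finset (Fin d)), (Finset.Ico (((blk (phi d L) l v) k : ℕ) * l)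
      (min ((((blk (phi d L) l v) k : ℕ) + 1) * l) L)).card = l := by
    intro k _
    have h2 : ((blk (phi d L) l v) k : ℕ) = (v k).val / l := by
      have h3 := co_phi v k
      unfold co at h3
      change ((phi d L v k : ℕ) / l) = _
      rw [h3]
    rw [h2, Nat.card_Ico, min_eq_left (hv k), add_mul, one_mul]
    omega
  rw [Finset.prod_congr rfl h1, Finset.prod_const, Finset.card_univ, Fintype.card_fin]

theorem near_blk {l : ℕ} (hl : 1 ≤ l) (v x : Fin d → ZMod L)
    (hx : x ∈ bl (blk (phi d L) l) v) : nrm (x - v) ≤ d * l := by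
  unfold bl at hx
  rw [Finset.mem_filter, blk_eq_iff] at hx
  unfold Pool.Agent.R517.PDL.nrm
  have h1 : ∀ i ∈ (Finset.univ : Finset (Fin d)), ((x - v) i).valMinAbs.natAbs ≤ l := by
    intro i _
    have hi := hx.2 i
    obtain ⟨m, hm⟩ : ∃ m, m = (v i).val / l := ⟨_, rfl⟩
    rw [← hm] at hi
    have hkey : ∀ z : ZMod L, z.val / l = m → (z - ((m * l : ℕ) : ZMod L)).val < l := by
      intro z hz
      have h2 : m * l ≤ z.val := by
        rw [← hz]
        exact Nat.div_mul_le_self _ _
      have h3 : z.val < m * l + l := by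
        rw [← hz]
        exact Nat.lt_div_mul_add (by omega)
      have e1 : z - ((m * l : ℕ) : ZMod L) = ((z.val - m * l : ℕ) : ZMod L) := by
        rw [Nat.cast_sub h2, ZMod.natCast_zmod_val]
      have h4 : z.val < L := ZMod.val_lt z
      rw [e1, ZMod.val_natCast_of_lt (by omega)]
      omega
    have h2 := Pool.Agent.R517.PDS.min_abs_sub l _ _ (hkey (x i) hi) (hkey (v i) hm.symm)
    have e2 : x i - ((m * l : ℕ) : ZMod L) - (v i - ((m * l : ℕ) : ZMod L)) = (x - v) i := by
      rw [Pi.sub_apply]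
      ring
    rwa [e2] at h2
  refine (Finset.sum_le_card_nsmul _ _ _ h1).trans (le_of_eq ?_)
  rw [Finset.card_univ, Fintype.card_fin, smul_eq_mul]

end torus

end Pool.Agent.Helper47K9.SH
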