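import Pool.Agent.Helper47K9.SH.Energy

/-!
# From block magnetisations to densities of cycles
-/

set_option autoImplicit false

namespace Pool.Agent.Helper47K9.SH

open Finset Equiv Pool.Agent.Y998.ST Pool.Agent.Y998.CN
open Pool.Agent.R517.PDS (DR)
open Pool.Agent.R517.PDL (ds)

section forms

variable {V : Type} [Fintype V] [DecidableEq V]

theorem DR_smul (g : Perm V) (a : ℝ) (u : V → ℝ) :
    DR g Finset.univ (fun x => a * u x) = a ^ 2 * DR g Finset.univ u := by
  unfold Pool.Agent.R517.PDS.DR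
  rw [Finset.mul_sum]
  refine Finset.sum_congr rfl fun x _ => ?_
  rw [Finset.mul_sum]
  refine Finset.sum_congr rfl fun y _ => ?_
  split_ifs <;> ring

theorem DR_le_sq (g : Perm V) (u : V → ℝ) : DR g Finset.univ u ≤ (∑ x, |u x|) ^ 2 := by
  unfold Pool.Agent.R517.PDS.DR
  rw [sq, Finset.sum_mul_sum]
  refine Finset.sum_le_sum fun x _ => Finset.sum_le_sum fun y _ => ?_
  split_ifs
  · rw [← abs_mul]
    exact le_abs_self _
  · positivity

theorem ds_abs (B S : Finset V) : ∑ x, |ds B S x| ≤ 2 := by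
  have h1 : ∀ x, |ds B S x| ≤ (if x ∈ B then 1 / (B.card : ℝ) else 0) +
      (if x ∈ S then 1 / (S.card : ℝ) else 0) := by
    intro x
    unfold Pool.Agent.R517.PDL.ds
    have h2 : (0 : ℝ) ≤ 1 / B.card := by positivity
    have h3 : (0 : ℝ) ≤ 1 / S.card := by positivity
    rw [abs_le]
    split_ifs <;> constructor <;> linarith
  refine (Finset.sum_le_sum fun x _ => h1 x).trans ?_
  rw [Finset.sum_add_distrib, Finset.sum_ite_mem, Finset.sum_ite_mem, Finset.univ_inter,
    Finset.univ_inter, Finset.sum_const, Finset.sum_const, nsmul_eq_mul, nsmul_eq_mul]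
  have h4 : ∀ s : Finset V, (s.card : ℝ) * (1 / s.card) ≤ 1 := by
    intro s
    rw [mul_one_div]
    exact div_self_le_one _
  linarith [h4 B, h4 S]

theorem DR_ds_sqrt (g : Perm V) (B S : Finset V) :
    DR g Finset.univ (ds B S) ≤ 2 * Real.sqrt (DR g Finset.univ (ds B S)) := by
  have h0 := Pool.Agent.R517.PDS.Win.DR_nonneg g Finset.univ (ds B S)
  have h1 : DR g Finset.univ (ds B S) ≤ 4 := by
    refine (DR_le_sq g _).trans ?_
    have h2 := ds_abs B S
    have h3 : 0 ≤ ∑ x, |ds B S x| := Finset.sum_nonneg fun x _ => abs_nonneg _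
    nlinarith
  have h4 : Real.sqrt (DR g Finset.univ (ds B S)) ≤ 2 := by
    rw [Real.sqrt_le_left (by norm_num)]
    linarith
  have h5 := Real.mul_self_sqrt h0
  have h6 := Real.sqrt_nonneg (DR g Finset.univ (ds B S))
  nlinarith

end forms

section blocks

variable {V I I' : Type} [Fintype V] [DecidableEq V] [DecidableEq I] [Fintype I'] [DecidableEq I']

/-- the block of a point -/
def bl {K : Type} [DecidableEq K] (b : V → K) (v : V) : Finset V := univ.filter fun x => b x = b v

theorem bl_pos {K : Type} [DecidableEq K] (b : V → K) (v : V) : 0 < (bl b v).card :=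
  Finset.card_pos.2 ⟨v, by simp [bl]⟩

theorem mm_ds (Q : V → I) (b : V → I') (hbQ : ∀ x y, b x = b y → Q x = Q y) (v x : V) :
    mm Q b (b v) x = ((bl b v).card : ℝ) * ds (bl b v) (bl Q v) x := by
  have hB : ((bl b v).card : ℝ) ≠ 0 := by exact_mod_cast (bl_pos b v).ne'
  unfold mm Pool.Agent.R517.PDL.ds
  rw [mul_sub]
  congr 1
  · by_cases h : b x = b v
    · rw [if_pos h, if_pos (by simp [bl, h])]
      field_simp
    · rw [if_neg h, if_neg (by simp [bl, h]), mul_zero]
  · unfold av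
    by_cases h : Q x = Q v
    · rw [if_pos (by simp [bl, h])]
      have h1 : ∀ y, wt Q x y * (if b y = b v then (1 : ℝ) else 0) =
          if b y = b v then 1 / ((bl Q v).card : ℝ) else 0 := by
        intro y
        by_cases h2 : b y = b v
        · rw [if_pos h2, if_pos h2, mul_one]
          unfold wt bl
          rw [if_pos (by rw [h, hbQ y v h2]), h]
        · rw [if_neg h2, if_neg h2, mul_zero]
      rw [Finset.sum_congr rfl fun y _ => h1 y, ← Finset.sum_filter, Finset.sum_const,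
        nsmul_eq_mul]
      rfl
    · rw [if_neg (by simp [bl, h]), mul_zero]
      refine Finset.sum_eq_zero fun y _ => ?_
      by_cases h2 : b y = b v
      · unfold wt
        rw [if_neg (fun h3 => h (h3.trans (hbQ y v h2))), zero_mul]
      · simp only
        rw [if_neg h2, mul_zero]

theorem sum_fib (b : V → I') (F : I' → ℝ) (hF : ∀ i, 0 ≤ F i) :
    ∑ v, F (b v) / ((bl b v).card : ℝ) ≤ ∑ i, F i := by
  rw [← Finset.sum_fiberwise univ b (fun v => F (b v) / ((bl b v).card : ℝ))]
  refine Finset.sum_le_sum fun i _ => ?_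
  have h1 : ∀ v ∈ univ.filter (fun v => b v = i), F (b v) / ((bl b v).card : ℝ) =
      F i / ((univ.filter (fun v => b v = i)).card : ℝ) := by
    intro v hv
    have h2 : b v = i := (Finset.mem_filter.1 hv).2
    unfold bl
    rw [h2]
  rw [Finset.sum_congr rfl h1, Finset.sum_const, nsmul_eq_mul]
  rcases Nat.eq_zero_or_pos (univ.filter (fun v => b v = i)).card with h | h
  · rw [h]
    simpa using hF i
  · have : ((univ.filter (fun v => b v = i)).card : ℝ) ≠ 0 := by exact_mod_cast h.ne'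
    field_simp
    exact le_rfl

theorem sum_ds (g : Perm V) (Q : V → I) (b : V → I') (hbQ : ∀ x y, b x = b y → Q x = Q y) :
    ∑ v, DR g Finset.univ (ds (bl b v) (bl Q v)) ≤
      2 * ∑ i, Real.sqrt (DR g Finset.univ (mm Q b i)) := by
  have h1 := sum_fib b (fun i => Real.sqrt (DR g Finset.univ (mm Q b i)))
    (fun i => Real.sqrt_nonneg _)
  refine le_trans ?_ (mul_le_mul_of_nonneg_left h1 (by norm_num))
  rw [Finset.mul_sum]
  refine Finset.sum_le_sum fun v _ => ?_
  refine (DR_ds_sqrt g _ _).trans (mul_le_mul_of_nonneg_left ?_ (by norm_num))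
  have hB : (0 : ℝ) < ((bl b v).card : ℝ) := by exact_mod_cast (bl_pos b v)
  have h2 : mm Q b (b v) = fun x => ((bl b v).card : ℝ) * ds (bl b v) (bl Q v) x := by
    funext x
    exact mm_ds Q b hbQ v x
  rw [h2, DR_smul, Real.sqrt_mul (by positivity), Real.sqrt_sq hB.le]
  field_simp
  exact le_rfl

/-- the main inequality for the densities -/
theorem main_D {J : V → V → ℝ} (hJ : ∀ x y, 0 ≤ J x y) (Q : V → I) (b : V → I')
    (hbQ : ∀ x y, b x = b y → Q x = Q y) (κ : ℝ) (hκ : 0 < κ)
    (hform : ∀ f : (V → Fin 2) → ℝ, κ * ∑ x, ∑ y, wt Q x y * DD f x y ≤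
      ∑ x, ∑ y, J x y * DD f x y) (X : ℝ)
    (hX : ∑ x, ∑ y, J x y * (if b x = b y then 0 else 1) ≤ X) (t : ℝ) (ht : 0 < t) (μ : ℝ)
    (hμ : 0 < μ) (hμ3 : 3 * μ ≤ 1) :
    Real.exp (μ * (9 / 32) * ∑ v, stirExp J t (fun g => DR g Finset.univ (ds (bl b v) (bl Q v)))) ≤
      (2 : ℝ) ^ Fintype.card I' * (Zf 2 J (t / 2) *
        Real.exp (μ ^ 2 * (8 * Fintype.card V / (κ * t) + 4 * t * X))) := by
  refine le_trans ?_ (main_T hJ Q b hbQ κ hκ hform X hX t ht μ hμ hμ3)
  refine Real.exp_le_exp.2 ?_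
  have h1 : ∑ v, stirExp J t (fun g => DR g Finset.univ (ds (bl b v) (bl Q v))) ≤
      2 * stirExp J t (fun g => ∑ i, Real.sqrt (DR g Finset.univ (mm Q b i))) := by
    rw [exp_sum]
    refine (exp_mono hJ ht.le fun g => sum_ds g Q b hbQ).trans (le_of_eq ?_)
    exact Pool.Agent.R517.PDS.Win.exp_mul' J t _ 2
  have h2 := mul_le_mul_of_nonneg_left h1 (by positivity : 0 ≤ μ * (9 / 32))
  refine h2.trans (le_of_eq ?_)
  ring

end blocks

end Pool.Agent.Helper47K9.SH
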