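import Pool.Agent.Helper799.Khin
import Pool.Agent.Y664.CN.TR
import Pool.Agent.Y998.CN.Fin
import Pool.Agent.R517.PDS.Win

/-!
# Invariant colourings: Khintchine and Jensen
-/

set_option autoImplicit false

namespace Pool.Agent.Helper47K9.SH

open Finset Equiv Pool.Agent.Y998.ST Pool.Agent.Y998.CN
open Pool.Agent.Y664.CN (YY fixEquiv)
open Pool.Agent.R517.PDS (DR)

/-- the sign of a colour -/
noncomputable def sg2 (i : Fin 2) : ℝ := if i = 0 then 1 else -1

theorem sg2_abs (i : Fin 2) : |sg2 i| = 1 := by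
  unfold sg2
  split_ifs <;> simp

/-- Khintchine's inequality -/
theorem khin2 {ι : Type} [Fintype ι] [DecidableEq ι] (a : ι → ℝ) :
    9 / 16 * ((2 : ℝ) ^ Fintype.card ι * Real.sqrt (∑ i, a i ^ 2)) ≤
      ∑ e : ι → Fin 2, |∑ i, sg2 (e i) * a i| := by
  have h := Pool.Agent.Helper799.Khin.khintchine (Finset.univ : Finset ι) a
  rw [Finset.card_univ] at h
  refine h.trans (le_of_eq ?_)
  refine Finset.sum_nbij' (fun s i => if i ∈ s then (0 : Fin 2) else 1)
    (fun e => Finset.univ.filter fun i => e i = 0) ?_ ?_ ?_ ?_ ?_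
  · intro s _
    exact Finset.mem_univ _
  · intro e _
    rw [Finset.mem_powerset]
    exact Finset.subset_univ _
  · intro s _
    ext i
    simp
  · intro e _
    funext i
    simp only [Finset.mem_filter, Finset.mem_univ, true_and]
    split_ifs with h1
    · exact h1.symm
    · omega
  · intro s _
    congr 1
    refine Finset.sum_congr rfl fun i _ => ?_
    unfold Pool.Agent.Helper799.Khin.sg sg2
    by_cases h1 : i ∈ s
    · simp [h1]
    · simp [h1]

section inv

variable {V : Type} [Fintype V] [DecidableEq V]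

open Classical in
/-- the sum over invariant colourings -/
theorem sum_inv (g : Perm V) (F : (V → Fin 2) → ℝ) :
    ∑ c : V → Fin 2, (if c = c ∘ g then F c else 0) =
      ∑ e : Quotient (Perm.SameCycle.setoid g) → Fin 2, F (fun x => e (Quotient.mk _ x)) := by
  rw [← Finset.sum_filter]
  have h1 : ∑ c ∈ univ.filter (fun c : V → Fin 2 => c = c ∘ g), F c =
      ∑ c : {c : V → Fin 2 // c = c ∘ g}, F c.1 := by
    rw [← Finset.sum_subtype_eq_sum_filter]
    refine Finset.sum_bij' (fun c _ => c) (fun c _ => c) ?_ ?_ ?_ ?_ ?_ <;> simp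
  rw [h1, ← Equiv.sum_comp (fixEquiv 2 g).symm]
  rfl

open Classical in
theorem DR_quot (g : Perm V) (u : V → ℝ) :
    DR g Finset.univ u = ∑ γ : Quotient (Perm.SameCycle.setoid g),
      (∑ x, if Quotient.mk (Perm.SameCycle.setoid g) x = γ then u x else 0) ^ 2 := by
  unfold Pool.Agent.R517.PDS.DR
  have h : ∀ γ : Quotient (Perm.SameCycle.setoid g),
      (∑ x, if Quotient.mk (Perm.SameCycle.setoid g) x = γ then u x else 0) ^ 2 =
      ∑ x, ∑ y, (if Quotient.mk (Perm.SameCycle.setoid g) x = γ then u x else 0) *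
        (if Quotient.mk (Perm.SameCycle.setoid g) y = γ then u y else 0) :=
    fun γ => by rw [sq, sum_mul_sum]
  rw [Finset.sum_congr rfl fun γ _ => h γ]
  symm
  rw [sum_comm]
  refine sum_congr rfl fun x _ => ?_
  rw [sum_comm]
  refine sum_congr rfl fun y _ => ?_
  rw [sum_eq_single (Quotient.mk (Perm.SameCycle.setoid g) x)]
  · rw [if_pos rfl]
    by_cases hxy : g.SameCycle x y
    · rw [if_pos hxy, if_pos (Quotient.sound (Perm.SameCycle.symm hxy))]
    · rw [if_neg hxy, if_neg (fun h => hxy (Perm.SameCycle.symm (Quotient.exact h))), mul_zero]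
  · intro γ _ hγ
    rw [if_neg (Ne.symm hγ), zero_mul]
  · intro h
    exact absurd (mem_univ _) h

open Classical in
/-- many invariant colourings see the inhomogeneity of the cycles -/
theorem inv_lower (g : Perm V) {ι : Type} [Fintype ι] (m : ι → V → ℝ) (μ : ℝ) (hμ : 0 ≤ μ) :
    Real.exp (μ * (9 / 16 * ∑ i, Real.sqrt (DR g Finset.univ (m i)))) ≤
      ∑ c : V → Fin 2, (if c = c ∘ g then Real.exp (μ * ∑ i, |∑ x, m i x * sg2 (c x)|) else 0) := by
  rw [sum_inv g fun c => Real.exp (μ * ∑ i, |∑ x, m i x * sg2 (c x)|)]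
  obtain ⟨Q, hQ⟩ : ∃ Q : ℕ, Q = Fintype.card (Quotient (Perm.SameCycle.setoid g)) := ⟨_, rfl⟩
  obtain ⟨a, ha⟩ : ∃ a : ι → Quotient (Perm.SameCycle.setoid g) → ℝ, a = fun i γ =>
    ∑ x, if Quotient.mk (Perm.SameCycle.setoid g) x = γ then m i x else 0 := ⟨_, rfl⟩
  have h1 : ∀ (e : Quotient (Perm.SameCycle.setoid g) → Fin 2) (i : ι),
      ∑ x, m i x * sg2 (e (Quotient.mk (Perm.SameCycle.setoid g) x)) =
      ∑ γ, sg2 (e γ) * a i γ := by
    intro e i
    rw [ha]
    simp only [Finset.mul_sum]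
    rw [Finset.sum_comm]
    refine Finset.sum_congr rfl fun x _ => ?_
    rw [Finset.sum_eq_single (Quotient.mk (Perm.SameCycle.setoid g) x)]
    · rw [if_pos rfl, mul_comm]
    · intro γ _ hγ
      rw [if_neg (Ne.symm hγ), mul_zero]
    · intro h
      exact absurd (mem_univ _) h
  obtain ⟨S, hS⟩ : ∃ S : (Quotient (Perm.SameCycle.setoid g) → Fin 2) → ℝ, S = fun e =>
    μ * ∑ i, |∑ γ, sg2 (e γ) * a i γ| := ⟨_, rfl⟩
  have h2 : ∀ e : Quotient (Perm.SameCycle.setoid g) → Fin 2,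
      Real.exp (μ * ∑ i, |∑ x, m i x * sg2 (e (Quotient.mk (Perm.SameCycle.setoid g) x))|) =
      Real.exp (S e) := by
    intro e
    rw [hS]
    simp only [h1]
  rw [Finset.sum_congr rfl fun e _ => h2 e]
  have hcard : (Fintype.card (Quotient (Perm.SameCycle.setoid g) → Fin 2) : ℝ) = (2 : ℝ) ^ Q := by
    rw [Fintype.card_fun, Fintype.card_fin, hQ]
    push_cast
    rfl
  have hp : (0 : ℝ) < (2 : ℝ) ^ Q := by positivity
  obtain ⟨Z, hZ⟩ : ∃ Z : ℝ, Z = μ * (9 / 16 * ∑ i, Real.sqrt (DR g Finset.univ (m i))) := ⟨_, rfl⟩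
  -- the mean of `S`
  have h3 : (2 : ℝ) ^ Q * Z ≤ ∑ e, S e := by
    rw [hS, hZ, ← Finset.mul_sum, Finset.sum_comm]
    have h4 : ∀ i, (2 : ℝ) ^ Q * (9 / 16 * Real.sqrt (DR g Finset.univ (m i))) ≤
        ∑ e : Quotient (Perm.SameCycle.setoid g) → Fin 2, |∑ γ, sg2 (e γ) * a i γ| := by
      intro i
      have h5 := khin2 (a i)
      rw [← hQ] at h5
      have h6 : DR g Finset.univ (m i) = ∑ γ, a i γ ^ 2 := by
        rw [DR_quot, ha]
      rw [h6]
      linarith
    have h7 := Finset.sum_le_sum fun i (_ : i ∈ (univ : Finset ι)) => h4 i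
    rw [← Finset.mul_sum, ← Finset.mul_sum] at h7
    calc (2 : ℝ) ^ Q * (μ * (9 / 16 * ∑ i, Real.sqrt (DR g Finset.univ (m i))))
        = μ * ((2 : ℝ) ^ Q * (9 / 16 * ∑ i, Real.sqrt (DR g Finset.univ (m i)))) := by ring
      _ ≤ _ := mul_le_mul_of_nonneg_left h7 hμ
  have h8 : ∀ e, Real.exp Z * (1 + (S e - Z)) ≤ Real.exp (S e) := by
    intro e
    have h9 := Real.add_one_le_exp (S e - Z)
    have h10 : Real.exp (S e) = Real.exp Z * Real.exp (S e - Z) := by
      rw [← Real.exp_add]; congr 1; ring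
    rw [h10]
    exact mul_le_mul_of_nonneg_left (by linarith) (Real.exp_pos _).le
  have h11 : Real.exp Z * (2 : ℝ) ^ Q ≤ ∑ e, Real.exp (S e) := by
    refine le_trans ?_ (Finset.sum_le_sum fun e _ => h8 e)
    rw [← Finset.mul_sum, Finset.sum_add_distrib, Finset.sum_sub_distrib, Finset.sum_const,
      Finset.sum_const, Finset.card_univ, nsmul_eq_mul, nsmul_eq_mul, hcard, mul_one]
    refine mul_le_mul_of_nonneg_left ?_ (Real.exp_pos _).le
    linarith
  rw [← hZ]
  refine le_trans ?_ h11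
  exact le_mul_of_one_le_right (Real.exp_pos _).le (one_le_pow₀ (by norm_num))

end inv

end Pool.Agent.Helper47K9.SH
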