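import Pool.Agent.Helper47K9.SH.Gron
import Pool.Agent.Helper47K9.SH.Khin
import Pool.Agent.R517.PDL.M1

/-!
# The energy of block magnetisations
-/

set_option autoImplicit false

namespace Pool.Agent.Helper47K9.SH

open Finset Equiv Pool.Agent.Y998.ST Pool.Agent.Y998.CN
open Pool.Agent.Y664.CN (YY fixEquiv)
open Pool.Agent.R517.PDS (DR)

section weights

variable {V I : Type} [Fintype V] [DecidableEq V] [DecidableEq I]

/-- the normalised indicator that two points are in one block -/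
noncomputable def wt (Q : V → I) (x y : V) : ℝ :=
  if Q x = Q y then 1 / ((univ.filter fun v => Q v = Q x).card : ℝ) else 0

theorem wt_nonneg (Q : V → I) (x y : V) : 0 ≤ wt Q x y := by
  unfold wt
  split_ifs
  · positivity
  · exact le_rfl

theorem wt_symm (Q : V → I) (x y : V) : wt Q x y = wt Q y x := by
  unfold wt
  by_cases h : Q x = Q y
  · rw [if_pos h, if_pos h.symm, h]
  · rw [if_neg h, if_neg (Ne.symm h)]

theorem wt_left (Q : V → I) {x x' : V} (h : Q x = Q x') (y : V) : wt Q x y = wt Q x' y := by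
  unfold wt
  rw [h]

theorem wt_sum (Q : V → I) (x : V) : ∑ y, wt Q x y = 1 := by
  unfold wt
  have h1 : 0 < (univ.filter fun v => Q v = Q x).card :=
    Finset.card_pos.2 ⟨x, by simp⟩
  rw [← Finset.sum_filter, Finset.sum_const, nsmul_eq_mul]
  have h2 : (univ.filter fun v => Q x = Q v) = univ.filter fun v => Q v = Q x := by
    ext v
    simp [eq_comm]
  rw [h2]
  have : ((univ.filter fun v => Q v = Q x).card : ℝ) ≠ 0 := by exact_mod_cast h1.ne'
  field_simp

/-- the mean over the block of `x` -/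
noncomputable def av (Q : V → I) (f : V → ℝ) (x : V) : ℝ := ∑ y, wt Q x y * f y

theorem av_eq (Q : V → I) (f : V → ℝ) {x x' : V} (h : Q x = Q x') : av Q f x = av Q f x' := by
  unfold av
  exact Finset.sum_congr rfl fun y _ => by rw [wt_left Q h]

theorem av_av (Q : V → I) (f : V → ℝ) (x : V) : av Q (av Q f) x = av Q f x := by
  have h1 : av Q (av Q f) x = ∑ y, wt Q x y * av Q f x := by
    refine Finset.sum_congr rfl fun y _ => ?_
    by_cases h : Q x = Q y
    · rw [av_eq Q f h]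
    · unfold wt
      rw [if_neg h, zero_mul, zero_mul]
  rw [h1, ← Finset.sum_mul, wt_sum, one_mul]

theorem av_le (Q : V → I) (f : V → ℝ) (C : ℝ) (hf : ∀ y, |f y| ≤ C) (x : V) : |av Q f x| ≤ C := by
  unfold av
  refine (Finset.abs_sum_le_sum_abs _ _).trans ?_
  have h1 : ∀ y ∈ (univ : Finset V), |wt Q x y * f y| ≤ wt Q x y * C := by
    intro y _
    rw [abs_mul, abs_of_nonneg (wt_nonneg Q x y)]
    exact mul_le_mul_of_nonneg_left (hf y) (wt_nonneg Q x y)
  refine (Finset.sum_le_sum h1).trans (le_of_eq ?_)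
  rw [← Finset.sum_mul, wt_sum, one_mul]

/-- antisymmetrisation -/
theorem antisym (Q : V → I) (φ S : V → ℝ) (h : ∀ x, av Q φ x = 0) :
    ∑ x, φ x * S x = 1 / 2 * ∑ x, ∑ y, wt Q x y * (φ x - φ y) * (S x - S y) := by
  have e1 : ∑ x, ∑ y, wt Q x y * (φ x - φ y) * S x = ∑ x, φ x * S x := by
    refine Finset.sum_congr rfl fun x _ => ?_
    have h1 : ∀ y, wt Q x y * (φ x - φ y) * S x = wt Q x y * (φ x * S x) - wt Q x y * φ y * S x :=
      fun y => by ring
    rw [Finset.sum_congr rfl fun y _ => h1 y, Finset.sum_sub_distrib, ← Finset.sum_mul,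
      ← Finset.sum_mul, wt_sum]
    have h2 := h x
    unfold av at h2
    rw [h2]
    ring
  have e2 : ∑ x, ∑ y, wt Q x y * (φ x - φ y) * S y = -∑ x, φ x * S x := by
    rw [Finset.sum_comm, ← e1, ← Finset.sum_neg_distrib]
    refine Finset.sum_congr rfl fun x _ => ?_
    rw [← Finset.sum_neg_distrib]
    refine Finset.sum_congr rfl fun y _ => ?_
    rw [wt_symm Q y x]
    ring
  have e3 : ∑ x, ∑ y, wt Q x y * (φ x - φ y) * (S x - S y) =
      ∑ x, ∑ y, wt Q x y * (φ x - φ y) * S x - ∑ x, ∑ y, wt Q x y * (φ x - φ y) * S y := by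
    rw [← Finset.sum_sub_distrib]
    refine Finset.sum_congr rfl fun x _ => ?_
    rw [← Finset.sum_sub_distrib]
    exact Finset.sum_congr rfl fun y _ => by ring
  rw [e3, e1, e2]
  ring

/-- the magnetisation profile of `f ^ 2` -/
noncomputable def mg (f : (V → Fin 2) → ℝ) (x : V) : ℝ := ∑ c, sg2 (c x) * f c ^ 2

theorem mg_diff (f : (V → Fin 2) → ℝ) (x y : V) (α : ℝ) (hα : 0 < α) :
    |mg f x - mg f y| ≤ α / 2 * DD f x y + 2 / α * ∑ c, f c ^ 2 := by
  have e1 : mg f x - mg f y = ∑ c, (sg2 (c x) - sg2 (c y)) * f c ^ 2 := by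
    unfold mg
    rw [← Finset.sum_sub_distrib]
    exact Finset.sum_congr rfl fun c _ => by ring
  have e2 : ∑ c : V → Fin 2, (sg2 (c x) - sg2 (c y)) * f c ^ 2 =
      -∑ c : V → Fin 2, (sg2 (c x) - sg2 (c y)) * f (c ∘ swap x y) ^ 2 := by
    rw [← sum_comp (swap x y) fun c : V → Fin 2 => (sg2 (c x) - sg2 (c y)) * f c ^ 2,
      ← Finset.sum_neg_distrib]
    refine Finset.sum_congr rfl fun c _ => ?_
    simp only [Function.comp_apply, swap_apply_left, swap_apply_right]
    ring
  have e3 : mg f x - mg f y = ∑ c : V → Fin 2, (sg2 (c x) - sg2 (c y)) / 2 *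
      ((f c - f (c ∘ swap x y)) * (f c + f (c ∘ swap x y))) := by
    have h1 : mg f x - mg f y = (∑ c : V → Fin 2, (sg2 (c x) - sg2 (c y)) * f c ^ 2) / 2 -
        (∑ c : V → Fin 2, (sg2 (c x) - sg2 (c y)) * f (c ∘ swap x y) ^ 2) / 2 := by
      rw [e1]
      linarith [e2]
    rw [h1, Finset.sum_div, Finset.sum_div, ← Finset.sum_sub_distrib]
    exact Finset.sum_congr rfl fun c _ => by ring
  rw [e3]
  refine (Finset.abs_sum_le_sum_abs _ _).trans ?_
  have h2 : ∀ c ∈ (univ : Finset (V → Fin 2)), |(sg2 (c x) - sg2 (c y)) / 2 *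
      ((f c - f (c ∘ swap x y)) * (f c + f (c ∘ swap x y)))| ≤
      α / 2 * (f c - f (c ∘ swap x y)) ^ 2 + 1 / α * (f c ^ 2 + f (c ∘ swap x y) ^ 2) := by
    intro c _
    rw [abs_mul]
    have h3 : |(sg2 (c x) - sg2 (c y)) / 2| ≤ 1 := by
      rw [abs_div, abs_two, div_le_one (by norm_num)]
      refine (abs_sub _ _).trans ?_
      rw [sg2_abs, sg2_abs]
      norm_num
    refine (mul_le_mul_of_nonneg_right h3 (abs_nonneg _)).trans ?_
    rw [one_mul]
    obtain ⟨p, hp⟩ : ∃ p, p = f c - f (c ∘ swap x y) := ⟨_, rfl⟩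
    obtain ⟨r, hr⟩ : ∃ r, r = f c + f (c ∘ swap x y) := ⟨_, rfl⟩
    have h4 : |p * r| ≤ α / 2 * p ^ 2 + 1 / (2 * α) * r ^ 2 := by
      have h5 : α / 2 * p ^ 2 + 1 / (2 * α) * r ^ 2 - |p * r| =
          (α * |p| - |r|) ^ 2 / (2 * α) := by
        rw [abs_mul]
        have h6 : |p| ^ 2 = p ^ 2 := sq_abs p
        have h7 : |r| ^ 2 = r ^ 2 := sq_abs r
        rw [← h6, ← h7]
        field_simp
        ring
      have h8 : 0 ≤ (α * |p| - |r|) ^ 2 / (2 * α) := by positivity
      linarith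
    have h9 : 1 / (2 * α) * r ^ 2 ≤ 1 / α * (f c ^ 2 + f (c ∘ swap x y) ^ 2) := by
      have h10 : r ^ 2 ≤ 2 * (f c ^ 2 + f (c ∘ swap x y) ^ 2) := by
        rw [hr]
        nlinarith [sq_nonneg (f c - f (c ∘ swap x y))]
      calc 1 / (2 * α) * r ^ 2 ≤ 1 / (2 * α) * (2 * (f c ^ 2 + f (c ∘ swap x y) ^ 2)) :=
            mul_le_mul_of_nonneg_left h10 (by positivity)
        _ = _ := by field_simp
    rw [← hp, ← hr]
    linarith
  refine (Finset.sum_le_sum h2).trans (le_of_eq ?_)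
  have h11 : ∑ c : V → Fin 2, f (c ∘ swap x y) ^ 2 = ∑ c, f c ^ 2 :=
    sum_comp (swap x y) fun c => f c ^ 2
  rw [Finset.sum_add_distrib, ← Finset.mul_sum, ← Finset.mul_sum, Finset.sum_add_distrib, h11]
  unfold DD
  ring

theorem energy (Q : V → I) (φ : V → ℝ) (h0 : ∀ x, av Q φ x = 0)
    (h2 : ∀ x y, Q x = Q y → |φ x - φ y| ≤ 2) (f : (V → Fin 2) → ℝ) (α : ℝ) (hα : 0 < α) :
    ∑ c, (∑ x, φ x * sg2 (c x)) * f c ^ 2 ≤
      α / 2 * (∑ x, ∑ y, wt Q x y * DD f x y) + 2 / α * (Fintype.card V * ∑ c, f c ^ 2) := by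
  have e1 : ∑ c, (∑ x, φ x * sg2 (c x)) * f c ^ 2 = ∑ x, φ x * mg f x := by
    unfold mg
    simp only [Finset.sum_mul, Finset.mul_sum]
    rw [Finset.sum_comm]
    refine Finset.sum_congr rfl fun x _ => Finset.sum_congr rfl fun c _ => ?_
    ring
  rw [e1, antisym Q φ (mg f) h0]
  have h3 : ∀ x y, wt Q x y * (φ x - φ y) * (mg f x - mg f y) ≤
      2 * (wt Q x y * (α / 2 * DD f x y + 2 / α * ∑ c, f c ^ 2)) := by
    intro x y
    by_cases h : Q x = Q y
    · have h4 : (φ x - φ y) * (mg f x - mg f y) ≤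
          2 * (α / 2 * DD f x y + 2 / α * ∑ c, f c ^ 2) := by
        refine (le_abs_self _).trans ?_
        rw [abs_mul]
        exact mul_le_mul (h2 x y h) (mg_diff f x y α hα) (abs_nonneg _) (by norm_num)
      have h5 := mul_le_mul_of_nonneg_left h4 (wt_nonneg Q x y)
      linarith
    · unfold wt
      rw [if_neg h]
      simp
  have h6 := Finset.sum_le_sum fun x (_ : x ∈ (univ : Finset V)) =>
    Finset.sum_le_sum fun y (_ : y ∈ (univ : Finset V)) => h3 x y
  have h7 : ∑ x, ∑ y, 2 * (wt Q x y * (α / 2 * DD f x y + 2 / α * ∑ c, f c ^ 2)) =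
      2 * (α / 2 * (∑ x, ∑ y, wt Q x y * DD f x y) + 2 / α * (Fintype.card V * ∑ c, f c ^ 2)) := by
    have h8 : ∀ x, ∑ y, 2 * (wt Q x y * (α / 2 * DD f x y + 2 / α * ∑ c, f c ^ 2)) =
        2 * (α / 2 * (∑ y, wt Q x y * DD f x y) + 2 / α * ∑ c, f c ^ 2) := by
      intro x
      have h9 : ∀ y, 2 * (wt Q x y * (α / 2 * DD f x y + 2 / α * ∑ c, f c ^ 2)) =
          2 * (α / 2) * (wt Q x y * DD f x y) + 2 * (2 / α * ∑ c, f c ^ 2) * wt Q x y :=
        fun y => by ring
      rw [Finset.sum_congr rfl fun y _ => h9 y, Finset.sum_add_distrib, ← Finset.mul_sum,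
        ← Finset.mul_sum, wt_sum]
      ring
    rw [Finset.sum_congr rfl fun x _ => h8 x, ← Finset.mul_sum, Finset.sum_add_distrib,
      ← Finset.mul_sum, Finset.sum_const, nsmul_eq_mul, Finset.card_univ]
    ring
  rw [h7] at h6
  linarith

theorem W_diff (φ : V → ℝ) (c : V → Fin 2) (x y : V) :
    |(∑ z, φ z * sg2 (c z)) - ∑ z, φ z * sg2 ((c ∘ swap x y) z)| ≤ 2 * |φ x - φ y| := by
  by_cases hxy : x = y
  · subst hxy
    simp
  have e1 : ∑ z, φ z * sg2 ((c ∘ swap x y) z) = ∑ z, φ (swap x y z) * sg2 (c z) := by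
    rw [← Equiv.sum_comp (swap x y) fun z => φ (swap x y z) * sg2 (c z)]
    refine Finset.sum_congr rfl fun z _ => ?_
    simp
  rw [e1, ← Finset.sum_sub_distrib, Fintype.sum_eq_add x y hxy ?_]
  · rw [swap_apply_left, swap_apply_right]
    have e2 : φ x * sg2 (c x) - φ y * sg2 (c x) + (φ y * sg2 (c y) - φ x * sg2 (c y)) =
        (φ x - φ y) * (sg2 (c x) - sg2 (c y)) := by ring
    rw [e2, abs_mul, mul_comm]
    refine mul_le_mul_of_nonneg_right ?_ (abs_nonneg _)
    refine (abs_sub _ _).trans ?_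
    rw [sg2_abs, sg2_abs]
    norm_num
  · rintro z ⟨h1, h2⟩
    rw [swap_apply_of_ne_of_ne h1 h2]
    ring

theorem cosh_le (z : ℝ) (hz : z ^ 2 ≤ 2) : Real.cosh z - 1 ≤ z ^ 2 := by
  have h1 := Real.cosh_le_exp_half_sq z
  have h2 : |z ^ 2 / 2| ≤ 1 := by
    rw [abs_of_nonneg (by positivity)]
    linarith
  have h3 := Real.abs_exp_sub_one_le h2
  rw [abs_of_nonneg (by positivity : 0 ≤ z ^ 2 / 2)] at h3
  have h4 := le_abs_self (Real.exp (z ^ 2 / 2) - 1)
  linarith

end weights

section main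

variable {V I I' : Type} [Fintype V] [DecidableEq V] [DecidableEq I] [Fintype I'] [DecidableEq I']

/-- the centred indicator of a small block -/
noncomputable def mm (Q : V → I) (b : V → I') (i : I') (x : V) : ℝ :=
  (if b x = i then 1 else 0) - av Q (fun y => if b y = i then 1 else 0) x

/-- the centred sign pattern -/
noncomputable def pat (Q : V → I) (b : V → I') (s : I' → Fin 2) (x : V) : ℝ :=
  sg2 (s (b x)) - av Q (fun y => sg2 (s (b y))) x

theorem pat_eq (Q : V → I) (b : V → I') (s : I' → Fin 2) (x : V) :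
    pat Q b s x = ∑ i, sg2 (s i) * mm Q b i x := by
  unfold pat mm av
  have h1 : ∀ y : V, ∑ i, sg2 (s i) * (if b y = i then 1 else 0) = sg2 (s (b y)) := by
    intro y
    simp only [mul_ite, mul_one, mul_zero]
    rw [Finset.sum_ite_eq, if_pos (Finset.mem_univ _)]
  simp only [mul_sub]
  rw [Finset.sum_sub_distrib, h1]
  congr 1
  simp only [Finset.mul_sum]
  rw [Finset.sum_comm]
  refine Finset.sum_congr rfl fun y _ => ?_
  rw [← h1 y, Finset.mul_sum]
  refine Finset.sum_congr rfl fun i _ => ?_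
  ring

theorem pat_av (Q : V → I) (b : V → I') (s : I' → Fin 2) (x : V) : av Q (pat Q b s) x = 0 := by
  have h1 : av Q (pat Q b s) x = av Q (fun y => sg2 (s (b y))) x -
      av Q (av Q (fun y => sg2 (s (b y)))) x := by
    unfold pat
    have : ∀ f h : V → ℝ, av Q (fun y => f y - h y) x = av Q f x - av Q h x := by
      intro f h
      unfold av
      rw [← Finset.sum_sub_distrib]
      exact Finset.sum_congr rfl fun y _ => by ring
    exact this _ _
  rw [h1, av_av, sub_self]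

theorem pat_diff (Q : V → I) (b : V → I') (s : I' → Fin 2) (x y : V) (h : Q x = Q y) :
    |pat Q b s x - pat Q b s y| ≤ 2 := by
  unfold pat
  rw [av_eq Q _ h]
  have e1 : sg2 (s (b x)) - av Q (fun y => sg2 (s (b y))) y -
      (sg2 (s (b y)) - av Q (fun y => sg2 (s (b y))) y) = sg2 (s (b x)) - sg2 (s (b y)) := by ring
  rw [e1]
  refine (abs_sub _ _).trans ?_
  rw [sg2_abs, sg2_abs]
  norm_num

theorem pat_abs (Q : V → I) (b : V → I') (s : I' → Fin 2) (x : V) : |pat Q b s x| ≤ 2 := by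
  unfold pat
  refine (abs_sub _ _).trans ?_
  have h1 := av_le Q (fun y => sg2 (s (b y))) 1 (fun y => (sg2_abs _).le) x
  rw [sg2_abs]
  linarith

theorem exp_jensen {J : V → V → ℝ} (hJ : ∀ x y, 0 ≤ J x y) {t : ℝ} (ht : 0 ≤ t)
    (F : Perm V → ℝ) : Real.exp (stirExp J t F) ≤ stirExp J t fun g => Real.exp (F g) := by
  have h1 := convexOn_exp.map_sum_le (t := Finset.univ) (w := stirLaw J t)
    (p := F) (fun g _ => law_nonneg hJ ht g) (law_sum J t) (fun i _ => Set.mem_univ _)
  simp only [smul_eq_mul] at h1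
  exact h1

/-- the main inequality -/
theorem main_T {J : V → V → ℝ} (hJ : ∀ x y, 0 ≤ J x y) (Q : V → I) (b : V → I')
    (hbQ : ∀ x y, b x = b y → Q x = Q y) (κ : ℝ) (hκ : 0 < κ)
    (hform : ∀ f : (V → Fin 2) → ℝ, κ * ∑ x, ∑ y, wt Q x y * DD f x y ≤
      ∑ x, ∑ y, J x y * DD f x y) (X : ℝ)
    (hX : ∑ x, ∑ y, J x y * (if b x = b y then 0 else 1) ≤ X) (t : ℝ) (ht : 0 < t) (μ : ℝ)
    (hμ : 0 < μ) (hμ3 : 3 * μ ≤ 1) :
    Real.exp (μ * (9 / 16) * stirExp J t (fun g => ∑ i, Real.sqrt (DR g Finset.univ (mm Q b i)))) ≤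
      (2 : ℝ) ^ Fintype.card I' * (Zf 2 J (t / 2) *
        Real.exp (μ ^ 2 * (8 * Fintype.card V / (κ * t) + 4 * t * X))) := by
  -- one pattern
  have h1 : ∀ s : I' → Fin 2, ∑ c, Real.exp (μ * ∑ x, pat Q b s x * sg2 (c x)) * YY 2 J t c c ≤
      Zf 2 J (t / 2) * Real.exp (μ ^ 2 * (8 * Fintype.card V / (κ * t) + 4 * t * X)) := by
    intro s
    have h2 := weighted_trace J hJ (fun c => ∑ x, pat Q b s x * sg2 (c x)) μ t
      (16 * μ ^ 2 * Fintype.card V / (κ * t ^ 2)) (8 * μ ^ 2 * X) ht hμ.le ?_ ?_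
    · refine h2.trans (le_of_eq ?_)
      congr 2
      field_simp
      ring
    · intro f
      have h3 := energy Q (pat Q b s) (pat_av Q b s) (pat_diff Q b s) f (κ * t / (4 * μ))
        (by positivity)
      have h4 := hform f
      have h5 := mul_le_mul_of_nonneg_left h3 (by positivity : 0 ≤ 2 * μ / t)
      refine h5.trans ?_
      have e1 : ∑ x, ∑ y, J x y / 4 * DD f x y = (∑ x, ∑ y, J x y * DD f x y) / 4 := by
        rw [Finset.sum_div]
        refine Finset.sum_congr rfl fun x _ => ?_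
        rw [Finset.sum_div]
        exact Finset.sum_congr rfl fun y _ => by ring
      rw [e1]
      have e2 : 2 * μ / t * (κ * t / (4 * μ) / 2 * ∑ x, ∑ y, wt Q x y * DD f x y +
          2 / (κ * t / (4 * μ)) * (Fintype.card V * ∑ c, f c ^ 2)) =
          (κ * ∑ x, ∑ y, wt Q x y * DD f x y) / 4 +
          16 * μ ^ 2 * Fintype.card V / (κ * t ^ 2) * ∑ c, f c ^ 2 := by
        field_simp
        ring
      rw [e2]
      linarith
    · intro a ha0 ha1 c
      have h3 : ∀ x y, J x y / 2 * (Real.cosh (a * ((∑ z, pat Q b s z * sg2 (c z)) -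
          ∑ z, pat Q b s z * sg2 ((c ∘ swap x y) z))) - 1) ≤
          8 * μ ^ 2 * (J x y * (if b x = b y then 0 else 1)) := by
        intro x y
        have h4 := W_diff (pat Q b s) c x y
        obtain ⟨D, hD⟩ : ∃ D : ℝ, D = (∑ z, pat Q b s z * sg2 (c z)) -
          ∑ z, pat Q b s z * sg2 ((c ∘ swap x y) z) := ⟨_, rfl⟩
        rw [← hD] at h4 ⊢
        by_cases h : b x = b y
        · rw [if_pos h]
          have h5 : pat Q b s x = pat Q b s y := by
            unfold pat
            rw [h, av_eq Q _ (hbQ x y h)]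
          rw [h5, sub_self, abs_zero, mul_zero] at h4
          have h6 : D = 0 := abs_eq_zero.1 (le_antisymm h4 (abs_nonneg _))
          rw [h6]
          simp
        · rw [if_neg h, mul_one]
          have h5 : |D| ≤ 8 := by
            have h6 : |pat Q b s x - pat Q b s y| ≤ 4 := by
              refine (abs_sub _ _).trans ?_
              have h7 := pat_abs Q b s x
              have h8 := pat_abs Q b s y
              linarith
            linarith
          have h6 : |a * D| ≤ 4 * μ := by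
            rw [abs_mul, abs_of_nonneg ha0]
            calc a * |D| ≤ μ / 2 * 8 := mul_le_mul ha1 h5 (abs_nonneg _) (by positivity)
              _ = 4 * μ := by ring
          have h7 : (a * D) ^ 2 ≤ 16 * μ ^ 2 := by
            rw [← sq_abs (a * D)]
            calc |a * D| ^ 2 ≤ (4 * μ) ^ 2 := pow_le_pow_left₀ (abs_nonneg _) h6 2
              _ = 16 * μ ^ 2 := by ring
          have h8 : 16 * μ ^ 2 ≤ 2 := by nlinarith
          have h9 := cosh_le (a * D) (h7.trans h8)
          have h10 := hJ x y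
          nlinarith
      refine (Finset.sum_le_sum fun x _ => Finset.sum_le_sum fun y _ => h3 x y).trans ?_
      simp only [← Finset.mul_sum]
      exact mul_le_mul_of_nonneg_left hX (by positivity)
  -- the patterns see all block magnetisations
  have h2 : ∀ c : V → Fin 2, Real.exp (μ * ∑ i, |∑ x, mm Q b i x * sg2 (c x)|) ≤
      ∑ s : I' → Fin 2, Real.exp (μ * ∑ x, pat Q b s x * sg2 (c x)) := by
    intro c
    obtain ⟨s, hs⟩ : ∃ s : I' → Fin 2, s = fun i =>
      if 0 ≤ ∑ x, mm Q b i x * sg2 (c x) then 0 else 1 := ⟨_, rfl⟩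
    have e1 : ∑ x, pat Q b s x * sg2 (c x) = ∑ i, |∑ x, mm Q b i x * sg2 (c x)| := by
      have e2 : ∑ x, pat Q b s x * sg2 (c x) = ∑ i, sg2 (s i) * ∑ x, mm Q b i x * sg2 (c x) := by
        simp only [pat_eq, Finset.sum_mul, Finset.mul_sum]
        rw [Finset.sum_comm]
        exact Finset.sum_congr rfl fun i _ => Finset.sum_congr rfl fun x _ => by ring
      rw [e2]
      refine Finset.sum_congr rfl fun i _ => ?_
      rw [hs]
      unfold sg2
      by_cases h : 0 ≤ ∑ x, mm Q b i x * (if c x = 0 then (1 : ℝ) else -1)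
      · have h' : 0 ≤ ∑ x, mm Q b i x * sg2 (c x) := h
        simp only [h, if_true]
        rw [abs_of_nonneg h, one_mul]
      · simp only [h, if_false]
        rw [abs_of_neg (not_le.1 h)]
        simp
    rw [← e1]
    exact Finset.single_le_sum (f := fun s : I' → Fin 2 =>
      Real.exp (μ * ∑ x, pat Q b s x * sg2 (c x))) (fun s _ => (Real.exp_pos _).le)
      (Finset.mem_univ s)
  -- conclusion
  have h3 : Real.exp (μ * (9 / 16) *
      stirExp J t (fun g => ∑ i, Real.sqrt (DR g Finset.univ (mm Q b i)))) ≤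
      stirExp J t (fun g => Real.exp (μ * (9 / 16 *
        ∑ i, Real.sqrt (DR g Finset.univ (mm Q b i))))) := by
    refine le_trans (le_of_eq ?_) (exp_jensen hJ ht.le _)
    congr 1
    unfold stirExp
    rw [Finset.mul_sum]
    exact Finset.sum_congr rfl fun g _ => by ring
  refine h3.trans ?_
  have h4 : stirExp J t (fun g => Real.exp (μ * (9 / 16 *
        ∑ i, Real.sqrt (DR g Finset.univ (mm Q b i))))) ≤
      ∑ s : I' → Fin 2, ∑ c, Real.exp (μ * ∑ x, pat Q b s x * sg2 (c x)) * YY 2 J t c c := by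
    have h5 : ∀ g : Perm V, Real.exp (μ * (9 / 16 *
        ∑ i, Real.sqrt (DR g Finset.univ (mm Q b i)))) ≤
        ∑ c : V → Fin 2, (if c = c ∘ g then (1 : ℝ) else 0) *
          ∑ s : I' → Fin 2, Real.exp (μ * ∑ x, pat Q b s x * sg2 (c x)) := by
      intro g
      refine (inv_lower g (mm Q b) μ hμ.le).trans ?_
      refine Finset.sum_le_sum fun c _ => ?_
      split_ifs
      · rw [one_mul]
        exact h2 c
      · rw [zero_mul]
    refine (exp_mono hJ ht.le h5).trans (le_of_eq ?_)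
    unfold YY stirExp
    rw [Finset.sum_comm]
    simp only [Finset.mul_sum]
    rw [Finset.sum_comm]
    refine Finset.sum_congr rfl fun c _ => ?_
    rw [Finset.sum_comm]
    refine Finset.sum_congr rfl fun s _ => ?_
    refine Finset.sum_congr rfl fun g _ => ?_
    split_ifs <;> ring
  refine h4.trans ?_
  refine (Finset.sum_le_sum fun s _ => h1 s).trans (le_of_eq ?_)
  rw [Finset.sum_const, nsmul_eq_mul, Finset.card_univ, Fintype.card_fun, Fintype.card_fin]
  push_cast
  rfl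

end main

end Pool.Agent.Helper47K9.SH
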