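import Pool.Agent.Y664.CN.TR
import Pool.Agent.Y998.CN.Quad
import Pool.Agent.Y998.LP.Law2

/-!
# Weighted traces of the spin 1/2 interchange Hamiltonian

`∑ c, exp (μ W c) P(c ∘ g = c)` is bounded by the trace at half the time and a Gronwall factor.
-/

set_option autoImplicit false

namespace Pool.Agent.Helper47K9.SH

open Finset Equiv Pool.Agent.Y998.ST Pool.Agent.Y998.CN
open Pool.Agent.Y664.CN (YY YY_deriv YY_zero)

section core

variable {V : Type} [Fintype V] [DecidableEq V] {q : ℕ}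

theorem comp_comp_swap (c : V → Fin q) (x y : V) : (c ∘ swap x y) ∘ swap x y = c := by
  funext z
  simp

theorem pair_core (W f : (V → Fin q) → ℝ) (a : ℝ) (x y : V) :
    DD (fun c => Real.exp (a * W c) * f c) x y / 2 -
      ∑ c, (Real.cosh (a * (W c - W (c ∘ swap x y))) - 1) * (Real.exp (a * W c) * f c) ^ 2 ≤
    ∑ c, Real.exp (2 * a * W c) * f c * (f c - f (c ∘ swap x y)) := by
  obtain ⟨h, hh⟩ : ∃ h : (V → Fin q) → ℝ, h = fun c => Real.exp (a * W c) * f c := ⟨_, rfl⟩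
  obtain ⟨k, hk⟩ : ∃ k : (V → Fin q) → ℝ, k = fun c =>
    Real.cosh (a * (W c - W (c ∘ swap x y))) - 1 := ⟨_, rfl⟩
  have hk0 : ∀ c, 0 ≤ k c := fun c => by
    rw [hk]; have := Real.one_le_cosh (a * (W c - W (c ∘ swap x y))); simp only; linarith
  have hks : ∀ c, k (c ∘ swap x y) = k c := by
    intro c
    rw [hk]
    simp only [comp_comp_swap]
    rw [← Real.cosh_neg]
    congr 2
    ring
  -- the products
  have e1 : ∀ c, Real.exp (2 * a * W c) * f c * (f c - f (c ∘ swap x y)) =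
      h c ^ 2 - Real.exp (a * (W c - W (c ∘ swap x y))) * (h c * h (c ∘ swap x y)) := by
    intro c
    rw [hh]
    simp only
    have e2 : Real.exp (2 * a * W c) = Real.exp (a * W c) * Real.exp (a * W c) := by
      rw [← Real.exp_add]; congr 1; ring
    have e3 : Real.exp (a * (W c - W (c ∘ swap x y))) * Real.exp (a * W (c ∘ swap x y)) =
        Real.exp (a * W c) := by
      rw [← Real.exp_add]; congr 1; ring
    have e4 : Real.exp (a * (W c - W (c ∘ swap x y))) * (Real.exp (a * W c) * f c *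
        (Real.exp (a * W (c ∘ swap x y)) * f (c ∘ swap x y))) =
        (Real.exp (a * (W c - W (c ∘ swap x y))) * Real.exp (a * W (c ∘ swap x y))) *
          (Real.exp (a * W c) * f c * f (c ∘ swap x y)) := by ring
    rw [e4, e3, e2]
    ring
  rw [Finset.sum_congr rfl fun c _ => e1 c, Finset.sum_sub_distrib]
  have e5 : ∑ c, Real.exp (a * (W c - W (c ∘ swap x y))) * (h c * h (c ∘ swap x y)) =
      ∑ c, (1 + k c) * (h c * h (c ∘ swap x y)) := by
    have e6 : ∑ c, Real.exp (a * (W c - W (c ∘ swap x y))) * (h c * h (c ∘ swap x y)) =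
        ∑ c, Real.exp (-(a * (W c - W (c ∘ swap x y)))) * (h c * h (c ∘ swap x y)) := by
      rw [← sum_comp (swap x y)]
      refine Finset.sum_congr rfl fun c _ => ?_
      rw [comp_comp_swap, mul_comm (h (c ∘ swap x y)) (h c)]
      congr 2
      ring
    have e7 : ∑ c, (1 + k c) * (h c * h (c ∘ swap x y)) =
        (∑ c, Real.exp (a * (W c - W (c ∘ swap x y))) * (h c * h (c ∘ swap x y)) +
          ∑ c, Real.exp (-(a * (W c - W (c ∘ swap x y)))) * (h c * h (c ∘ swap x y))) / 2 := by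
      rw [← Finset.sum_add_distrib, Finset.sum_div]
      refine Finset.sum_congr rfl fun c _ => ?_
      rw [hk]
      simp only
      rw [Real.cosh_eq]
      ring
    rw [e7, ← e6]
    ring
  rw [e5]
  have e8 : ∑ c, (1 + k c) * (h c * h (c ∘ swap x y)) ≤
      ∑ c, h c * h (c ∘ swap x y) + ∑ c, k c * h c ^ 2 := by
    have e9 : ∑ c, k c * h c ^ 2 = ∑ c, k c * ((h c ^ 2 + h (c ∘ swap x y) ^ 2) / 2) := by
      have e10 : ∑ c, k c * h (c ∘ swap x y) ^ 2 = ∑ c, k c * h c ^ 2 := by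
        rw [← sum_comp (swap x y) fun c => k c * h c ^ 2]
        exact Finset.sum_congr rfl fun c _ => by rw [hks]
      have e11 : ∀ c, k c * ((h c ^ 2 + h (c ∘ swap x y) ^ 2) / 2) =
          (k c * h c ^ 2 + k c * h (c ∘ swap x y) ^ 2) / 2 := fun c => by ring
      rw [Finset.sum_congr rfl fun c _ => e11 c, ← Finset.sum_div, Finset.sum_add_distrib, e10]
      ring
    rw [e9, ← Finset.sum_add_distrib]
    refine Finset.sum_le_sum fun c _ => ?_
    have h1 := hk0 c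
    have h2 : h c * h (c ∘ swap x y) ≤ (h c ^ 2 + h (c ∘ swap x y) ^ 2) / 2 := by
      nlinarith [sq_nonneg (h c - h (c ∘ swap x y))]
    nlinarith
  have e12 : DD h x y / 2 = ∑ c, h c ^ 2 - ∑ c, h c * h (c ∘ swap x y) := by
    rw [← DD_half, ← Finset.sum_sub_distrib]
    exact Finset.sum_congr rfl fun c _ => by ring
  have e13 : DD (fun c => Real.exp (a * W c) * f c) x y = DD h x y := by rw [hh]
  have e14 : ∑ c, (Real.cosh (a * (W c - W (c ∘ swap x y))) - 1) * (Real.exp (a * W c) * f c) ^ 2 =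
      ∑ c, k c * h c ^ 2 := by rw [hh, hk]
  rw [e13, e14, e12]
  linarith

/-- the weighted form of the Hamiltonian -/
theorem core_ineq (J : V → V → ℝ) (hJ : ∀ x y, 0 ≤ J x y) (W f : (V → Fin q) → ℝ) (a κ : ℝ)
    (hκ : ∀ c, ∑ x, ∑ y, J x y / 2 * (Real.cosh (a * (W c - W (c ∘ swap x y))) - 1) ≤ κ) :
    (∑ x, ∑ y, J x y / 4 * DD (fun c => Real.exp (a * W c) * f c) x y) -
      κ * ∑ c, (Real.exp (a * W c) * f c) ^ 2 ≤
    ∑ c, Real.exp (2 * a * W c) * f c * ∑ x, ∑ y, J x y / 2 * (f c - f (c ∘ swap x y)) := by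
  have h1 : ∑ c, Real.exp (2 * a * W c) * f c * ∑ x, ∑ y, J x y / 2 * (f c - f (c ∘ swap x y)) =
      ∑ x, ∑ y, J x y / 2 * ∑ c, Real.exp (2 * a * W c) * f c * (f c - f (c ∘ swap x y)) := by
    simp only [Finset.mul_sum]
    rw [Finset.sum_comm]
    refine Finset.sum_congr rfl fun x _ => ?_
    rw [Finset.sum_comm]
    refine Finset.sum_congr rfl fun y _ => Finset.sum_congr rfl fun c _ => ?_
    ring
  rw [h1]
  have h2 : ∑ x, ∑ y, J x y / 2 * (DD (fun c => Real.exp (a * W c) * f c) x y / 2 -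
      ∑ c, (Real.cosh (a * (W c - W (c ∘ swap x y))) - 1) * (Real.exp (a * W c) * f c) ^ 2) ≤
      ∑ x, ∑ y, J x y / 2 * ∑ c, Real.exp (2 * a * W c) * f c * (f c - f (c ∘ swap x y)) :=
    Finset.sum_le_sum fun x _ => Finset.sum_le_sum fun y _ =>
      mul_le_mul_of_nonneg_left (pair_core W f a x y) (by have := hJ x y; linarith)
  refine le_trans ?_ h2
  have h3 : ∑ x, ∑ y, J x y / 2 * (DD (fun c => Real.exp (a * W c) * f c) x y / 2 -
      ∑ c, (Real.cosh (a * (W c - W (c ∘ swap x y))) - 1) * (Real.exp (a * W c) * f c) ^ 2) =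
      (∑ x, ∑ y, J x y / 4 * DD (fun c => Real.exp (a * W c) * f c) x y) -
      ∑ c, (∑ x, ∑ y, J x y / 2 * (Real.cosh (a * (W c - W (c ∘ swap x y))) - 1)) *
        (Real.exp (a * W c) * f c) ^ 2 := by
    have h4 : ∑ c, (∑ x, ∑ y, J x y / 2 * (Real.cosh (a * (W c - W (c ∘ swap x y))) - 1)) *
        (Real.exp (a * W c) * f c) ^ 2 = ∑ x, ∑ y, J x y / 2 *
        ∑ c, (Real.cosh (a * (W c - W (c ∘ swap x y))) - 1) * (Real.exp (a * W c) * f c) ^ 2 := by
      simp only [Finset.mul_sum, Finset.sum_mul]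
      rw [Finset.sum_comm]
      refine Finset.sum_congr rfl fun x _ => ?_
      rw [Finset.sum_comm]
      refine Finset.sum_congr rfl fun y _ => Finset.sum_congr rfl fun c _ => ?_
      ring
    rw [h4, ← Finset.sum_sub_distrib]
    refine Finset.sum_congr rfl fun x _ => ?_
    rw [← Finset.sum_sub_distrib]
    refine Finset.sum_congr rfl fun y _ => ?_
    ring
  rw [h3]
  have h5 : ∑ c, (∑ x, ∑ y, J x y / 2 * (Real.cosh (a * (W c - W (c ∘ swap x y))) - 1)) *
      (Real.exp (a * W c) * f c) ^ 2 ≤ κ * ∑ c, (Real.exp (a * W c) * f c) ^ 2 := by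
    rw [Finset.mul_sum]
    exact Finset.sum_le_sum fun c _ => mul_le_mul_of_nonneg_right (hκ c) (sq_nonneg _)
  linarith

theorem YY_eq (J : V → V → ℝ) (t : ℝ) : YY q J t = E (-(ham q J)) t :=
  eq_E (YY_deriv q J) (YY_zero q J) t

theorem YY_symm (J : V → V → ℝ) (t : ℝ) (c c' : V → Fin q) : YY q J t c c' = YY q J t c' c := by
  unfold YY stirExp
  rw [← Equiv.sum_comp (Equiv.inv (Perm V))]
  refine Finset.sum_congr rfl fun g _ => ?_
  simp only [Equiv.inv_apply]
  rw [Pool.Agent.Y998.LP.law_inv]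
  congr 1
  have h : c = c' ∘ (g⁻¹ : Perm V) ↔ c' = c ∘ g := by
    constructor
    · intro h; rw [h]; funext z; simp
    · intro h; rw [h]; funext z; simp
  simp only [h]

theorem YY_sq (J : V → V → ℝ) (t : ℝ) (c : V → Fin q) :
    ∑ c', YY q J (t / 2) c' c ^ 2 = YY q J t c c := by
  have h1 : YY q J t = YY q J (t / 2) * YY q J (t / 2) := by
    rw [YY_eq, YY_eq, ← E_add]
    congr 1
    ring
  rw [h1, Matrix.mul_apply]
  refine Finset.sum_congr rfl fun c' _ => ?_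
  rw [YY_symm J (t / 2) c c']
  ring

/-- the weighted second moment -/
noncomputable def GW (q : ℕ) (J : V → V → ℝ) (W : (V → Fin q) → ℝ) (a s : ℝ) : ℝ :=
  ∑ c, ∑ c', Real.exp (2 * a * W c') * YY q J s c c' ^ 2

theorem GW_nonneg (J : V → V → ℝ) (W : (V → Fin q) → ℝ) (a s : ℝ) : 0 ≤ GW q J W a s :=
  Finset.sum_nonneg fun c _ => Finset.sum_nonneg fun c' _ => by positivity

theorem GW_deriv (J : V → V → ℝ) (W : (V → Fin q) → ℝ) (b s₀ s : ℝ) :
    HasDerivAt (fun u => GW q J W (b * (u - s₀)) u)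
      (∑ c, (2 * b * ∑ c', W c' * (Real.exp (b * (s - s₀) * W c') * YY q J s c c') ^ 2 -
        2 * ∑ c', Real.exp (2 * (b * (s - s₀)) * W c') * YY q J s c c' *
          ∑ x, ∑ y, J x y / 2 * (YY q J s c c' - YY q J s c (c' ∘ swap x y)))) s := by
  unfold GW
  refine HasDerivAt.fun_sum fun c _ => ?_
  have h0 : (2 * b * ∑ c', W c' * (Real.exp (b * (s - s₀) * W c') * YY q J s c c') ^ 2 -
        2 * ∑ c', Real.exp (2 * (b * (s - s₀)) * W c') * YY q J s c c' *
          ∑ x, ∑ y, J x y / 2 * (YY q J s c c' - YY q J s c (c' ∘ swap x y))) =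
      ∑ c', (2 * b * (W c' * (Real.exp (b * (s - s₀) * W c') * YY q J s c c') ^ 2) -
        2 * (Real.exp (2 * (b * (s - s₀)) * W c') * YY q J s c c' *
          ∑ x, ∑ y, J x y / 2 * (YY q J s c c' - YY q J s c (c' ∘ swap x y)))) := by
    rw [Finset.sum_sub_distrib, Finset.mul_sum, Finset.mul_sum]
  rw [h0]
  refine HasDerivAt.fun_sum fun c' _ => ?_
  have h1 : HasDerivAt (fun u : ℝ => Real.exp (2 * (b * (u - s₀)) * W c'))
      (Real.exp (2 * (b * (s - s₀)) * W c') * (2 * b * W c')) s := by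
    have h2 : HasDerivAt (fun u : ℝ => 2 * (b * (u - s₀)) * W c') (2 * b * W c') s := by
      have h3 : HasDerivAt (fun u : ℝ => 2 * (b * (u - s₀)) * W c') (2 * (b * 1) * W c') s :=
        ((((hasDerivAt_id s).sub_const s₀).const_mul b).const_mul 2).mul_const (W c')
      rwa [mul_one] at h3
    exact h2.exp
  have h4 := YY_deriv q J s c c'
  have h5 : (YY q J s * (-(ham q J))) c c' =
      -∑ x, ∑ y, J x y / 2 * (YY q J s c c' - YY q J s c (c' ∘ swap x y)) := by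
    rw [Matrix.mul_apply, ← ham_mulVec J (fun z => YY q J s c z) c', ← Finset.sum_neg_distrib]
    refine Finset.sum_congr rfl fun z _ => ?_
    rw [Matrix.neg_apply, ham_symm J z c']
    ring
  rw [h5] at h4
  have h7 : HasDerivAt (fun u => YY q J u c c' ^ 2) (2 * YY q J s c c' *
      (-∑ x, ∑ y, J x y / 2 * (YY q J s c c' - YY q J s c (c' ∘ swap x y)))) s := by
    refine (h4.fun_pow 2).congr_deriv ?_
    simp
  refine (h1.fun_mul h7).congr_deriv ?_
  have e2 : Real.exp (2 * (b * (s - s₀)) * W c') =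
      Real.exp (b * (s - s₀) * W c') * Real.exp (b * (s - s₀) * W c') := by
    rw [← Real.exp_add]; congr 1; ring
  push_cast
  rw [e2]
  ring

/-- the Gronwall bound -/
theorem GW_le (J : V → V → ℝ) (hJ : ∀ x y, 0 ≤ J x y) (W : (V → Fin q) → ℝ) (b s₀ s₁ κ₁ κ₂ : ℝ)
    (hs : s₀ ≤ s₁)
    (h1 : ∀ f : (V → Fin q) → ℝ, b * ∑ c, W c * f c ^ 2 ≤
      (∑ x, ∑ y, J x y / 4 * DD f x y) + κ₁ * ∑ c, f c ^ 2)
    (h2 : ∀ a : ℝ, 0 ≤ a → a ≤ b * (s₁ - s₀) → ∀ c : V → Fin q,
      ∑ x, ∑ y, J x y / 2 * (Real.cosh (a * (W c - W (c ∘ swap x y))) - 1) ≤ κ₂) (hb : 0 ≤ b) :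
    GW q J W (b * (s₁ - s₀)) s₁ ≤ GW q J W 0 s₀ * Real.exp (2 * (κ₁ + κ₂) * (s₁ - s₀)) := by
  obtain ⟨κ, hκ⟩ : ∃ κ : ℝ, κ = 2 * (κ₁ + κ₂) := ⟨_, rfl⟩
  obtain ⟨G, hG⟩ : ∃ G : ℝ → ℝ, G = fun u => GW q J W (b * (u - s₀)) u := ⟨_, rfl⟩
  obtain ⟨G', hG'⟩ : ∃ G' : ℝ → ℝ, G' = fun s =>
      (∑ c, (2 * b * ∑ c', W c' * (Real.exp (b * (s - s₀) * W c') * YY q J s c c') ^ 2 -
        2 * ∑ c', Real.exp (2 * (b * (s - s₀)) * W c') * YY q J s c c' *
          ∑ x, ∑ y, J x y / 2 * (YY q J s c c' - YY q J s c (c' ∘ swap x y)))) := ⟨_, rfl⟩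
  have hd : ∀ s, HasDerivAt G (G' s) s := fun s => by
    rw [hG, hG']; exact GW_deriv J W b s₀ s
  have hle : ∀ s, s₀ ≤ s → s ≤ s₁ → G' s ≤ κ * G s := by
    intro s hs0 hs1
    have ha0 : 0 ≤ b * (s - s₀) := mul_nonneg hb (by linarith)
    have ha1 : b * (s - s₀) ≤ b * (s₁ - s₀) := mul_le_mul_of_nonneg_left (by linarith) hb
    have e1 : κ * G s = ∑ c, κ * ∑ c', (Real.exp (b * (s - s₀) * W c') * YY q J s c c') ^ 2 := by
      rw [hG]
      unfold GW
      rw [Finset.mul_sum]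
      refine Finset.sum_congr rfl fun c _ => ?_
      congr 1
      refine Finset.sum_congr rfl fun c' _ => ?_
      have e2 : Real.exp (2 * (b * (s - s₀)) * W c') =
          Real.exp (b * (s - s₀) * W c') * Real.exp (b * (s - s₀) * W c') := by
        rw [← Real.exp_add]; congr 1; ring
      rw [e2]
      ring
    rw [hG', e1]
    refine Finset.sum_le_sum fun c _ => ?_
    have h3 := core_ineq J hJ W (fun c' => YY q J s c c') (b * (s - s₀)) κ₂
      (h2 (b * (s - s₀)) ha0 ha1)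
    have h4 := h1 fun c' => Real.exp (b * (s - s₀) * W c') * YY q J s c c'
    rw [hκ]
    linarith
  obtain ⟨H, hH⟩ : ∃ H : ℝ → ℝ, H = fun s => G s * Real.exp (-(κ * s)) := ⟨_, rfl⟩
  have hHd : ∀ s, HasDerivAt H ((G' s - κ * G s) * Real.exp (-(κ * s))) s := by
    intro s
    rw [hH]
    have h3 : HasDerivAt (fun s : ℝ => Real.exp (-(κ * s))) (Real.exp (-(κ * s)) * (-κ)) s := by
      have h4 : HasDerivAt (fun s : ℝ => -(κ * s)) (-(κ * 1)) s :=
        ((hasDerivAt_id s).const_mul κ).neg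
      rw [mul_one] at h4
      exact h4.exp
    refine ((hd s).mul h3).congr_deriv ?_
    ring
  have hanti : AntitoneOn H (Set.Icc s₀ s₁) := by
    refine antitoneOn_of_deriv_nonpos (convex_Icc _ _)
      (fun s _ => (hHd s).continuousAt.continuousWithinAt)
      (fun s _ => (hHd s).differentiableAt.differentiableWithinAt) ?_
    intro s hs'
    rw [interior_Icc] at hs'
    rw [(hHd s).deriv]
    exact mul_nonpos_of_nonpos_of_nonneg (by linarith [hle s hs'.1.le hs'.2.le])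
      (Real.exp_pos _).le
  have h5 := hanti (Set.left_mem_Icc.2 hs) (Set.right_mem_Icc.2 hs) hs
  rw [hH] at h5
  simp only at h5
  have h6 : G s₁ = G s₁ * Real.exp (-(κ * s₁)) * Real.exp (κ * s₁) := by
    rw [mul_assoc, ← Real.exp_add]; simp
  have h7 : G s₀ * Real.exp (κ * (s₁ - s₀)) = G s₀ * Real.exp (-(κ * s₀)) * Real.exp (κ * s₁) := by
    rw [mul_assoc, ← Real.exp_add]; congr 2; ring
  have h8 : G s₁ ≤ G s₀ * Real.exp (κ * (s₁ - s₀)) := by
    rw [h6, h7]
    exact mul_le_mul_of_nonneg_right h5 (Real.exp_pos _).le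
  rw [hG, hκ] at h8
  simpa using h8

/-- the weighted trace -/
theorem weighted_trace (J : V → V → ℝ) (hJ : ∀ x y, 0 ≤ J x y) (W : (V → Fin q) → ℝ)
    (μ t κ₁ κ₂ : ℝ) (ht : 0 < t) (hμ : 0 ≤ μ)
    (h1 : ∀ f : (V → Fin q) → ℝ, 2 * μ / t * ∑ c, W c * f c ^ 2 ≤
      (∑ x, ∑ y, J x y / 4 * DD f x y) + κ₁ * ∑ c, f c ^ 2)
    (h2 : ∀ a : ℝ, 0 ≤ a → a ≤ μ / 2 → ∀ c : V → Fin q,
      ∑ x, ∑ y, J x y / 2 * (Real.cosh (a * (W c - W (c ∘ swap x y))) - 1) ≤ κ₂) :
    ∑ c, Real.exp (μ * W c) * YY q J t c c ≤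
      Zf q J (t / 2) * Real.exp ((κ₁ + κ₂) * (t / 2)) := by
  have hb : 2 * μ / t * (t / 2 - t / 4) = μ / 2 := by field_simp; ring
  have h3 := GW_le J hJ W (2 * μ / t) (t / 4) (t / 2) κ₁ κ₂ (by linarith) h1
    (by rw [hb]; exact h2) (by positivity)
  rw [hb] at h3
  have e1 : GW q J W (μ / 2) (t / 2) = ∑ c, Real.exp (μ * W c) * YY q J t c c := by
    unfold GW
    rw [Finset.sum_comm]
    refine Finset.sum_congr rfl fun c _ => ?_
    rw [← YY_sq J t c, Finset.mul_sum]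
    refine Finset.sum_congr rfl fun c' _ => ?_
    congr 2
    ring
  have e2 : GW q J W 0 (t / 4) = Zf q J (t / 2) := by
    unfold GW Zf
    rw [Finset.sum_comm, ← YY_eq, Matrix.trace]
    refine Finset.sum_congr rfl fun c _ => ?_
    rw [Matrix.diag_apply, ← YY_sq J (t / 2) c]
    refine Finset.sum_congr rfl fun c' _ => ?_
    have : t / 2 / 2 = t / 4 := by ring
    rw [this]
    simp
  rw [e1, e2] at h3
  refine h3.trans (le_of_eq ?_)
  congr 2
  ring

end core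

end Pool.Agent.Helper47K9.SH
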