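import Pool.Agent.Helper47K9.SH.Cross

/-!
# From the mean over the torus to all pairs of translates
-/

set_option autoImplicit false

namespace Pool.Agent.Helper47K9.SH

open Finset Equiv Pool.Agent.Y998.ST Pool.Agent.Y998.CN
open Pool.Agent.R517.PDS (DR PP exp_DR PP_trans)
open Pool.Agent.R517.PDS.Win (DR_nonneg DR_add exp_mul' exp_add')
open Pool.Agent.R517.PDL (ds nrm dif)

section count

variable {d L : ℕ} [NeZero L]

open Classical in
theorem shift_nat {r : ℕ} (hr : 1 ≤ r) (m : ℕ) :
    ∑ z : ZMod L, (if z.val / r = (z + (m : ZMod L)).val / r then (0 : ℝ) else 1) ≤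
      m * ((L / r + 1 : ℕ) : ℝ) := by
  induction m with
  | zero => simp
  | succ m ih =>
    have h1 : ∀ z : ZMod L, (if z.val / r = (z + ((m + 1 : ℕ) : ZMod L)).val / r then
        (0 : ℝ) else 1) ≤ (if z.val / r = (z + (m : ZMod L)).val / r then (0 : ℝ) else 1) +
        (if z + (m : ZMod L) ∈ bad L r then 1 else 0) := by
      intro z
      have e1 : z + ((m + 1 : ℕ) : ZMod L) = z + (m : ZMod L) + 1 := by
        push_cast
        ring
      rw [e1]
      by_cases h2 : z + (m : ZMod L) ∈ bad L r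
      · rw [if_pos h2]
        split_ifs <;> norm_num
      · rw [if_neg h2]
        unfold bad at h2
        rw [Finset.mem_filter, not_and, not_not] at h2
        rw [← h2 (Finset.mem_univ _)]
        simp
    refine (Finset.sum_le_sum fun z _ => h1 z).trans ?_
    rw [Finset.sum_add_distrib]
    have h3 : ∑ z : ZMod L, (if z + (m : ZMod L) ∈ bad L r then (1 : ℝ) else 0) ≤
        ((L / r + 1 : ℕ) : ℝ) := by
      have h4 : ∑ z : ZMod L, (if z + (m : ZMod L) ∈ bad L r then (1 : ℝ) else 0) =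
          ∑ z : ZMod L, if z ∈ bad L r then (1 : ℝ) else 0 :=
        Equiv.sum_comp (Equiv.addRight (m : ZMod L)) fun z => if z ∈ bad L r then (1 : ℝ) else 0
      rw [h4, Finset.sum_ite_mem, Finset.univ_inter, Finset.sum_const, nsmul_eq_mul, mul_one]
      exact_mod_cast bad_card hr
    push_cast at ih h3 ⊢
    linarith

open Classical in
theorem shift_any {r : ℕ} (hr : 1 ≤ r) (w : ZMod L) :
    ∑ z : ZMod L, (if z.val / r = (z + w).val / r then (0 : ℝ) else 1) ≤
      w.valMinAbs.natAbs * ((L / r + 1 : ℕ) : ℝ) := by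
  have hw : (w.valMinAbs : ZMod L) = w := ZMod.coe_valMinAbs w
  obtain ⟨m, hm⟩ : ∃ m : ℕ, m = w.valMinAbs.natAbs := ⟨_, rfl⟩
  rw [← hm]
  rcases Int.natAbs_eq w.valMinAbs with h | h
  · have e1 : w = (m : ZMod L) := by
      rw [← hw, h, ← hm]
      push_cast
      rfl
    rw [e1]
    exact shift_nat hr m
  · have e1 : w = -(m : ZMod L) := by
      rw [← hw, h, ← hm]
      push_cast
      rfl
    refine le_trans (le_of_eq ?_) (shift_nat (L := L) hr m)
    rw [← Equiv.sum_comp (Equiv.addRight (m : ZMod L))]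
    refine Finset.sum_congr rfl fun z _ => ?_
    simp only [Equiv.coe_addRight, e1, add_neg_cancel_right]
    by_cases h2 : z.val / r = (z + (m : ZMod L)).val / r
    · rw [if_pos h2.symm, if_pos h2]
    · rw [if_neg (Ne.symm h2), if_neg h2]

open Classical in
/-- points whose translate is in another block -/
theorem count_shift {r : ℕ} (hr : 1 ≤ r) (hrL : r ≤ L) (w : Fin d → ZMod L)
    (hw : 16 * nrm w ≤ r ∨ r = L) :
    ∑ v : Fin d → ZMod L, (if blk (phi d L) r v = blk (phi d L) r (v + w) then (0 : ℝ) else 1) ≤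
      (L : ℝ) ^ d / 8 := by
  have hLr : (0 : ℝ) < L := by exact_mod_cast (Nat.pos_of_ne_zero (NeZero.ne L))
  rcases hw with hw | hw
  swap
  · have h1 : ∀ v ∈ (univ : Finset (Fin d → ZMod L)),
        (if blk (phi d L) r v = blk (phi d L) r (v + w) then (0 : ℝ) else 1) = 0 := by
      intro v _
      rw [if_pos]
      rw [blk_eq_iff, hw]
      intro k
      rw [Nat.div_eq_of_lt (ZMod.val_lt _), Nat.div_eq_of_lt (ZMod.val_lt _)]
    rw [Finset.sum_eq_zero h1]
    positivity
  have hrr : (0 : ℝ) < r := by exact_mod_cast hr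
  have h1 : ∀ v : Fin d → ZMod L, (if blk (phi d L) r v = blk (phi d L) r (v + w) then
      (0 : ℝ) else 1) ≤ ∑ k, (if (v k).val / r = (v k + w k).val / r then (0 : ℝ) else 1) := by
    intro v
    have h0 : ∀ k ∈ (univ : Finset (Fin d)),
        0 ≤ (if (v k).val / r = (v k + w k).val / r then (0 : ℝ) else 1) := fun k _ => by
      split_ifs <;> norm_num
    by_cases h : blk (phi d L) r v = blk (phi d L) r (v + w)
    · rw [if_pos h]
      exact Finset.sum_nonneg h0
    · rw [if_neg h]
      rw [blk_eq_iff, not_forall] at h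
      obtain ⟨k, hk⟩ := h
      refine le_trans ?_ (Finset.single_le_sum h0 (Finset.mem_univ k))
      rw [Pi.add_apply] at hk
      rw [if_neg hk]
  refine (Finset.sum_le_sum fun v _ => h1 v).trans ?_
  rw [Finset.sum_comm]
  have h2 : ∀ k : Fin d, ∑ v : Fin d → ZMod L,
      (if (v k).val / r = (v k + w k).val / r then (0 : ℝ) else 1) ≤
      ((w k).valMinAbs.natAbs : ℝ) * (2 * (L : ℝ) ^ d / r) := by
    intro k
    have h3 := sum_coord (d := d) (L := L)
      (fun z => if z.val / r = (z + w k).val / r then (0 : ℝ) else 1) k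
    have h4 := shift_any (L := L) hr (w k)
    have h5 : ((L / r + 1 : ℕ) : ℝ) ≤ 2 * L / r := by
      push_cast
      have h9 : ((L / r : ℕ) : ℝ) ≤ (L : ℝ) / r := Nat.cast_div_le
      have h10 : (1 : ℝ) ≤ L / r := by
        rw [le_div_iff₀ hrr, one_mul]
        exact_mod_cast hrL
      have h11 : 2 * (L : ℝ) / r = L / r + L / r := by ring
      linarith
    obtain ⟨S, hS⟩ : ∃ S : ℝ, S = ∑ v : Fin d → ZMod L,
      (if (v k).val / r = (v k + w k).val / r then (0 : ℝ) else 1) := ⟨_, rfl⟩
    rw [← hS] at h3 ⊢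
    have h12 : (L : ℝ) * S ≤ (L : ℝ) * (((w k).valMinAbs.natAbs : ℝ) * (2 * (L : ℝ) ^ d / r)) := by
      rw [h3]
      calc (L : ℝ) ^ d * _ ≤ (L : ℝ) ^ d * (((w k).valMinAbs.natAbs : ℝ) * (2 * L / r)) :=
            mul_le_mul_of_nonneg_left (h4.trans (mul_le_mul_of_nonneg_left h5 (by positivity)))
              (by positivity)
        _ = _ := by ring
    exact le_of_mul_le_mul_left h12 hLr
  refine (Finset.sum_le_sum fun k _ => h2 k).trans ?_
  rw [← Finset.sum_mul]
  have h3 : ∑ k : Fin d, ((w k).valMinAbs.natAbs : ℝ) ≤ r / 16 := by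
    have h4 : (16 : ℝ) * (nrm w : ℝ) ≤ r := by exact_mod_cast hw
    have h5 : (nrm w : ℝ) = ∑ k : Fin d, ((w k).valMinAbs.natAbs : ℝ) := by
      unfold Pool.Agent.R517.PDL.nrm
      rw [← Nat.cast_sum]
    rw [← h5]
    linarith
  calc (∑ k : Fin d, ((w k).valMinAbs.natAbs : ℝ)) * (2 * (L : ℝ) ^ d / r) ≤
        r / 16 * (2 * (L : ℝ) ^ d / r) := mul_le_mul_of_nonneg_right h3 (by positivity)
    _ = (L : ℝ) ^ d / 8 := by
        field_simp
        ring

/-- the block of side `l` of `v` is a full cube -/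
def full (l : ℕ) (v : Fin d → ZMod L) : Prop := ∀ k, ((v k).val / l + 1) * l ≤ L

open Classical in
theorem count_full1 (l : ℕ) :
    ∑ z : ZMod L, (if (z.val / l + 1) * l ≤ L then (0 : ℝ) else 1) ≤ l := by
  have h1 : ∑ z : ZMod L, (if (z.val / l + 1) * l ≤ L then (0 : ℝ) else 1) =
      ((univ.filter fun z : ZMod L => ¬ (z.val / l + 1) * l ≤ L).card : ℝ) := by
    rw [Finset.card_filter]
    push_cast
    refine Finset.sum_congr rfl fun z _ => ?_
    by_cases h : (z.val / l + 1) * l ≤ L
    · rw [if_pos h, if_neg (not_not.2 h)]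
    · rw [if_neg h, if_pos h]
  rw [h1]
  have h2 : (univ.filter fun z : ZMod L => ¬ (z.val / l + 1) * l ≤ L).card ≤
      (Finset.range l).card := by
    refine Finset.card_le_card_of_injOn (fun z => L - 1 - z.val) ?_ ?_
    · intro z hz
      rw [Finset.mem_coe, Finset.mem_filter] at hz
      rw [Finset.mem_coe, Finset.mem_range]
      have h3 := hz.2
      rw [not_le, add_mul, one_mul] at h3
      have h4 := Nat.div_mul_le_self z.val l
      have h5 : z.val < L := ZMod.val_lt z
      simp only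
      omega
    · intro z _ w _ h
      simp only at h
      have h5 : z.val < L := ZMod.val_lt z
      have h6 : w.val < L := ZMod.val_lt w
      apply ZMod.val_injective L
      omega
  rw [Finset.card_range] at h2
  exact_mod_cast h2

open Classical in
/-- points in blocks that are not full -/
theorem count_full {l : ℕ} (hlL : 8 * d * l ≤ L) :
    ∑ v : Fin d → ZMod L, (if full l v then (0 : ℝ) else 1) ≤ (L : ℝ) ^ d / 8 := by
  have hLr : (0 : ℝ) < L := by exact_mod_cast (Nat.pos_of_ne_zero (NeZero.ne L))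
  have h1 : ∀ v : Fin d → ZMod L, (if full l v then (0 : ℝ) else 1) ≤
      ∑ k, (if ((v k).val / l + 1) * l ≤ L then (0 : ℝ) else 1) := by
    intro v
    have h0 : ∀ k ∈ (univ : Finset (Fin d)),
        0 ≤ (if ((v k).val / l + 1) * l ≤ L then (0 : ℝ) else 1) := fun k _ => by
      split_ifs <;> norm_num
    by_cases h : full l v
    · rw [if_pos h]
      exact Finset.sum_nonneg h0
    · rw [if_neg h]
      unfold full at h
      rw [not_forall] at h
      obtain ⟨k, hk⟩ := h
      refine le_trans ?_ (Finset.single_le_sum h0 (Finset.mem_univ k))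
      rw [if_neg hk]
  refine (Finset.sum_le_sum fun v _ => h1 v).trans ?_
  rw [Finset.sum_comm]
  have h2 : ∀ k : Fin d, ∑ v : Fin d → ZMod L,
      (if ((v k).val / l + 1) * l ≤ L then (0 : ℝ) else 1) ≤ (L : ℝ) ^ d * (l / L) := by
    intro k
    have h3 := sum_coord (d := d) (L := L)
      (fun z => if (z.val / l + 1) * l ≤ L then (0 : ℝ) else 1) k
    have h4 := count_full1 (L := L) l
    obtain ⟨S, hS⟩ : ∃ S : ℝ, S = ∑ v : Fin d → ZMod L,
      (if ((v k).val / l + 1) * l ≤ L then (0 : ℝ) else 1) := ⟨_, rfl⟩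
    rw [← hS] at h3 ⊢
    have h12 : (L : ℝ) * S ≤ (L : ℝ) * ((L : ℝ) ^ d * (l / L)) := by
      rw [h3]
      calc (L : ℝ) ^ d * _ ≤ (L : ℝ) ^ d * l := mul_le_mul_of_nonneg_left h4 (by positivity)
        _ = _ := by field_simp
    exact le_of_mul_le_mul_left h12 hLr
  refine (Finset.sum_le_sum fun k _ => h2 k).trans ?_
  rw [Finset.sum_const, nsmul_eq_mul, Finset.card_univ, Fintype.card_fin]
  have h3 : (8 : ℝ) * d * l ≤ L := by exact_mod_cast hlL
  have h4 : (d : ℝ) * (l / L) ≤ 1 / 8 := by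
    rw [← mul_div_assoc, div_le_iff₀ hLr]
    linarith
  calc (d : ℝ) * ((L : ℝ) ^ d * (l / L)) = (L : ℝ) ^ d * (d * (l / L)) := by ring
    _ ≤ (L : ℝ) ^ d * (1 / 8) := mul_le_mul_of_nonneg_left h4 (by positivity)
    _ = _ := by ring

/-- a pair of points where the mean is small -/
theorem pigeon {l r : ℕ} (hlL : 8 * d * l ≤ L) (hr : 1 ≤ r) (hrL : r ≤ L)
    (F : (Fin d → ZMod L) → ℝ) (hF : ∀ v, 0 ≤ F v) (ε : ℝ) (hε : 0 < ε)
    (hS : ∑ v, F v ≤ ε * (L : ℝ) ^ d) (w : Fin d → ZMod L) (hw : 16 * nrm w ≤ r ∨ r = L) :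
    ∃ v, blk (phi d L) r v = blk (phi d L) r (v + w) ∧ full l v ∧ full l (v + w) ∧
      F v + F (v + w) ≤ 4 * ε := by
  classical
  by_contra hcon
  push Not at hcon
  have hN : (0 : ℝ) < (L : ℝ) ^ d := by
    have hLr : (0 : ℝ) < L := by exact_mod_cast (Nat.pos_of_ne_zero (NeZero.ne L))
    positivity
  have h1 : ∀ v, 4 * ε ≤ F v + F (v + w) + 4 * ε *
      ((if blk (phi d L) r v = blk (phi d L) r (v + w) then (0 : ℝ) else 1) +
        (if full l v then (0 : ℝ) else 1) + (if full l (v + w) then (0 : ℝ) else 1)) := by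
    intro v
    have h2 := hF v
    have h3 := hF (v + w)
    by_cases a1 : blk (phi d L) r v = blk (phi d L) r (v + w)
    · by_cases a2 : full l v
      · by_cases a3 : full l (v + w)
        · have := hcon v a1 a2 a3
          rw [if_pos a1, if_pos a2, if_pos a3]
          linarith
        · rw [if_pos a1, if_pos a2, if_neg a3]
          linarith
      · rw [if_pos a1, if_neg a2]
        split_ifs <;> linarith
    · rw [if_neg a1]
      split_ifs <;> linarith
  have h2 := Finset.sum_le_sum fun v (_ : v ∈ (univ : Finset (Fin d → ZMod L))) => h1 v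
  rw [Finset.sum_const, nsmul_eq_mul, Finset.card_univ, card_tor, Finset.sum_add_distrib,
    Finset.sum_add_distrib, ← Finset.mul_sum, Finset.sum_add_distrib,
    Finset.sum_add_distrib] at h2
  have h3 : ∑ v, F (v + w) = ∑ v, F v := Equiv.sum_comp (Equiv.addRight w) F
  have h4 : ∑ v : Fin d → ZMod L, (if full l (v + w) then (0 : ℝ) else 1) =
      ∑ v : Fin d → ZMod L, (if full l v then (0 : ℝ) else 1) :=
    Equiv.sum_comp (Equiv.addRight w) fun v : Fin d → ZMod L => if full l v then (0 : ℝ) else 1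
  rw [h3, h4] at h2
  have h5 := count_shift hr hrL w hw
  have h6 := count_full (d := d) (L := L) hlL
  have h7 : 4 * ε * (∑ v : Fin d → ZMod L,
      (if blk (phi d L) r v = blk (phi d L) r (v + w) then (0 : ℝ) else 1) +
      ∑ v : Fin d → ZMod L, (if full l v then (0 : ℝ) else 1) +
      ∑ v : Fin d → ZMod L, (if full l v then (0 : ℝ) else 1)) ≤
      4 * ε * (3 * ((L : ℝ) ^ d / 8)) :=
    mul_le_mul_of_nonneg_left (by linarith) (by positivity)
  have h8 : 0 < ε * (L : ℝ) ^ d := by positivity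
  linarith

end count

section forms

variable {d L : ℕ} [NeZero L]

theorem DR_neg' {V : Type} [Fintype V] [DecidableEq V] (g : Perm V) (u : V → ℝ) :
    DR g Finset.univ (fun x => -u x) = DR g Finset.univ u := by
  have h := DR_smul g (-1) u
  simp only [neg_mul, one_mul] at h
  rw [h]
  norm_num

theorem DR_four {V : Type} [Fintype V] [DecidableEq V] (g : Perm V) (a b c e : V → ℝ) :
    DR g Finset.univ (fun x => (a x + b x) + (-c x + -e x)) ≤
      4 * (DR g Finset.univ a + DR g Finset.univ b + DR g Finset.univ c + DR g Finset.univ e) := by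
  have h1 := DR_add g Finset.univ (fun x => a x + b x) (fun x => -c x + -e x)
  have h2 := DR_add g Finset.univ a b
  have h3 := DR_add g Finset.univ (fun x => -c x) (fun x => -e x)
  rw [DR_neg', DR_neg'] at h3
  linarith

/-- the law of the difference depends only on `v - v'` -/
theorem dif_trans (t : ℝ) (B : Finset (Fin d → ZMod L)) (z v v' : Fin d → ZMod L) :
    stirExp (nnRate d L) t (fun g => DR g Finset.univ (dif B (z + v) (z + v'))) =
      stirExp (nnRate d L) t (fun g => DR g Finset.univ (dif B v v')) := by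
  rw [exp_DR, exp_DR, ← Equiv.sum_comp (Equiv.addLeft z)]
  refine Finset.sum_congr rfl fun x _ => ?_
  rw [← Equiv.sum_comp (Equiv.addLeft z)]
  refine Finset.sum_congr rfl fun y _ => ?_
  have h1 : ∀ u x : Fin d → ZMod L, z + x ∈ B.image (fun b => z + u + b) ↔
      x ∈ B.image (fun b => u + b) := by
    intro u x
    simp only [Finset.mem_image]
    constructor
    · rintro ⟨b, hb, h⟩
      refine ⟨b, hb, ?_⟩
      rw [add_assoc] at h
      exact add_left_cancel h
    · rintro ⟨b, hb, h⟩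
      exact ⟨b, hb, by rw [add_assoc, h]⟩
  have h2 : ∀ x : Fin d → ZMod L, dif B (z + v) (z + v') (z + x) = dif B v v' x := by
    intro x
    unfold Pool.Agent.R517.PDL.dif
    simp only [h1]
  rw [Equiv.coe_addLeft, h2, h2, PP_trans]

theorem hom_core {t : ℝ} (ht : 0 ≤ t) {l r : ℕ} (hl : 1 ≤ l) (hlL : 8 * d * l ≤ L)
    (hr : 1 ≤ r) (hrL : r ≤ L) (ε : ℝ) (hε : 0 < ε)
    (hS : ∑ v, stirExp (nnRate d L) t (fun g => DR g Finset.univ
      (ds (bl (blk (phi d L) l) v) (bl (blk (phi d L) r) v))) ≤ ε * (L : ℝ) ^ d)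
    (B : Finset (Fin d → ZMod L)) (e : ℝ)
    (hloc : ∀ v, (bl (blk (phi d L) l) v).card = l ^ d → stirExp (nnRate d L) t (fun g =>
      DR g Finset.univ (ds (B.image (fun b => v + b)) (bl (blk (phi d L) l) v))) ≤ e)
    (v v' : Fin d → ZMod L) (hv : 16 * nrm (v - v') ≤ r ∨ r = L) :
    stirExp (nnRate d L) t (fun g => DR g Finset.univ (dif B v v')) ≤ 8 * e + 16 * ε := by
  obtain ⟨w, hw⟩ : ∃ w, w = v - v' := ⟨_, rfl⟩
  rw [← hw] at hv
  obtain ⟨v₀, h1, h2, h3, h4⟩ := pigeon hlL hr hrL (fun v => stirExp (nnRate d L) t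
    (fun g => DR g Finset.univ (ds (bl (blk (phi d L) l) v) (bl (blk (phi d L) r) v))))
    (fun v => exp_nonneg nn_nonneg ht fun g => DR_nonneg g _ _) ε hε hS w hv
  have e1 : stirExp (nnRate d L) t (fun g => DR g Finset.univ (dif B v v')) =
      stirExp (nnRate d L) t (fun g => DR g Finset.univ (dif B (v₀ + w) v₀)) := by
    rw [← dif_trans t B (v₀ - v') v v']
    have a1 : v₀ - v' + v = v₀ + w := by rw [hw]; abel
    have a2 : v₀ - v' + v' = v₀ := by abel
    rw [a1, a2]
  rw [e1]
  have h5 := hloc v₀ (card_full hl v₀ h2)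
  have h6 := hloc (v₀ + w) (card_full hl (v₀ + w) h3)
  have hQ : bl (blk (phi d L) r) (v₀ + w) = bl (blk (phi d L) r) v₀ := by
    unfold bl
    rw [h1]
  rw [hQ] at h4
  have hcard : ∀ w : Fin d → ZMod L, (B.image (fun b => w + b)).card = B.card := fun w =>
    Finset.card_image_of_injective B fun a b h => add_left_cancel h
  have e2 : dif B (v₀ + w) v₀ = fun x =>
      (ds (B.image (fun b => v₀ + w + b)) (bl (blk (phi d L) l) (v₀ + w)) x +
        ds (bl (blk (phi d L) l) (v₀ + w)) (bl (blk (phi d L) r) v₀) x) +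
      (-ds (B.image (fun b => v₀ + b)) (bl (blk (phi d L) l) v₀) x +
        -ds (bl (blk (phi d L) l) v₀) (bl (blk (phi d L) r) v₀) x) := by
    funext x
    unfold Pool.Agent.R517.PDL.dif Pool.Agent.R517.PDL.ds
    rw [hcard, hcard]
    ring
  rw [e2]
  have h7 := exp_mono (J := nnRate d L) nn_nonneg ht fun g => DR_four g
    (ds (B.image (fun b => v₀ + w + b)) (bl (blk (phi d L) l) (v₀ + w)))
    (ds (bl (blk (phi d L) l) (v₀ + w)) (bl (blk (phi d L) r) v₀))
    (ds (B.image (fun b => v₀ + b)) (bl (blk (phi d L) l) v₀))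
    (ds (bl (blk (phi d L) l) v₀) (bl (blk (phi d L) r) v₀))
  refine h7.trans ?_
  rw [exp_mul', exp_add', exp_add', exp_add']
  linarith

end forms

end Pool.Agent.Helper47K9.SH
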