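import Pool.Agent.Helper47K9.SH.Par
import Pool.Agent.R517.PDL.M2

/-!
# Homogeneity of the cycles up to the scale `(t / log t) ^ ((d + 2) / 4)`
-/

set_option autoImplicit false

namespace Pool.Agent.Helper47K9.SH

open Finset Equiv Pool.Agent.Y998.ST Pool.Agent.Y998.CN
open Pool.Agent.R517.PDS (DR PP tdist_box zero_box t_NEAR)
open Pool.Agent.R517.PDL (ds nrm dif t_HOM2 kloc nrm_tri PP_QQ tdist_nrm ds_small)

theorem t_HOM3 (d : ℕ) (hd : 1 ≤ d) (A₁ : ℝ) (hA₁ : 1 ≤ A₁) (δ : ℝ) (hδ : 0 < δ)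
    (hδA : δ * Real.sqrt A₁ ≤ 1) (ε : ℝ) (hε : 0 < ε) : ∃ A : ℝ, 1 ≤ A ∧ ∃ κ : ℝ, 0 < κ ∧
    ∀ (L : ℕ) [NeZero L], 3 ≤ L → ∀ t : ℝ, A ≤ t → t ≤ A₁ * (L : ℝ) ^ 2 →
    1 ≤ ⌊δ * Real.sqrt t⌋₊ ∧ ⌊δ * Real.sqrt t⌋₊ ≤ L ∧
    ∀ v v' : Fin d → ZMod L, (nrm (v - v') : ℝ) ≤ κ * XX d t →
    stirExp (nnRate d L) t (fun g =>
      DR g Finset.univ (dif (Pool.Agent.R517.PDS.box d L ⌊δ * Real.sqrt t⌋₊) v v')) ≤ ε := by
  have hd1 : (1 : ℝ) ≤ d := by exact_mod_cast hd
  obtain ⟨e, he⟩ : ∃ e : ℝ, e = ε / 16 := ⟨_, rfl⟩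
  have he0 : 0 < e := by rw [he]; positivity
  obtain ⟨AH, hAH, κH, hκH, hH⟩ := t_HOM2 d hd A₁ hA₁ δ hδ hδA ε hε
  obtain ⟨T₂, hT₂, κ₂, hκ₂, _, hk⟩ := kloc d hd 2 (by norm_num) (e / 8) (by positivity)
  obtain ⟨c₁, hc₁⟩ : ∃ c₁ : ℝ, c₁ = min (κ₂ / (4 * d)) (κH / (8 * d ^ 2)) := ⟨_, rfl⟩
  have hc₁0 : 0 < c₁ := by rw [hc₁]; exact lt_min (by positivity) (by positivity)
  have hc₁a : c₁ * (4 * d) ≤ κ₂ := by
    have h1 : c₁ ≤ κ₂ / (4 * d) := by rw [hc₁]; exact min_le_left _ _
    rwa [le_div_iff₀ (by positivity)] at h1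
  have hc₁b : c₁ * (8 * d ^ 2) ≤ κH := by
    have h1 : c₁ ≤ κH / (8 * d ^ 2) := by rw [hc₁]; exact min_le_right _ _
    rwa [le_div_iff₀ (by positivity)] at h1
  obtain ⟨κ', hκ', AS, _, hS⟩ := S_small d hd (ε / 32) (by positivity) (c₁ / 2) (by positivity)
  obtain ⟨c, hc⟩ : ∃ c : ℝ, c = min (min (min (κH / d) (κ₂ / (2 * d * δ))) (min 1 (c₁ / 2)))
    (min (min (e * δ / 8) (e / 4)) (κ' / c₁)) := ⟨_, rfl⟩
  have hc0 : 0 < c := by
    rw [hc]
    exact lt_min (lt_min (lt_min (by positivity) (by positivity)) (lt_min (by norm_num)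
      (by positivity))) (lt_min (lt_min (by positivity) (by positivity)) (by positivity))
  have k1 : c * d ≤ κH := by
    have h1 : c ≤ κH / d := by
      rw [hc]; exact (min_le_left _ _).trans ((min_le_left _ _).trans (min_le_left _ _))
    rwa [le_div_iff₀ (by positivity)] at h1
  have k2 : c * (2 * d * δ) ≤ κ₂ := by
    have h1 : c ≤ κ₂ / (2 * d * δ) := by
      rw [hc]; exact (min_le_left _ _).trans ((min_le_left _ _).trans (min_le_right _ _))
    rwa [le_div_iff₀ (by positivity)] at h1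
  have k3 : c ≤ 1 := by
    rw [hc]; exact (min_le_left _ _).trans ((min_le_right _ _).trans (min_le_left _ _))
  have k4 : 2 * c ≤ c₁ := by
    have h1 : c ≤ c₁ / 2 := by
      rw [hc]; exact (min_le_left _ _).trans ((min_le_right _ _).trans (min_le_right _ _))
    linarith
  have k5 : 8 * c ≤ e * δ := by
    have h1 : c ≤ e * δ / 8 := by
      rw [hc]; exact (min_le_right _ _).trans ((min_le_left _ _).trans (min_le_left _ _))
    linarith
  have k6 : 4 * c ≤ e := by
    have h1 : c ≤ e / 4 := by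
      rw [hc]; exact (min_le_right _ _).trans ((min_le_left _ _).trans (min_le_right _ _))
    linarith
  have k7 : c * c₁ ≤ κ' := by
    have h1 : c ≤ κ' / c₁ := by
      rw [hc]; exact (min_le_right _ _).trans (min_le_right _ _)
    rwa [le_div_iff₀ hc₁0] at h1
  obtain ⟨A, hA4, hA⟩ := asym d hd c hc0
  refine ⟨max (max AH T₂) (max AS A), (hAH.trans (le_max_left _ _)).trans (le_max_left _ _),
    κ' / 64, by positivity, ?_⟩
  intro L _ hL t ht htL
  have t1 : AH ≤ t := ((le_max_left _ _).trans (le_max_left _ _)).trans ht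
  have t2 : T₂ ≤ t := ((le_max_right _ _).trans (le_max_left _ _)).trans ht
  have t3 : AS ≤ t := ((le_max_left _ _).trans (le_max_right _ _)).trans ht
  have t4 : A ≤ t := ((le_max_right _ _).trans (le_max_right _ _)).trans ht
  obtain ⟨hR1, hRL, hh⟩ := hH L hL t t1 htL
  refine ⟨hR1, hRL, ?_⟩
  obtain ⟨_, h2, h3, h4⟩ := hA t t4
  have ht4 : 4 ≤ t := hA4.trans t4
  have ht0 : 0 < t := by linarith
  have hs0 : 0 < Real.sqrt t := Real.sqrt_pos.2 ht0
  have hs1 : 1 ≤ Real.sqrt t := Real.one_le_sqrt.2 (by linarith)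
  have hLr0 : (0 : ℝ) < L := by exact_mod_cast (by omega : 0 < L)
  have hY0 : 0 < YS d t := by unfold YS; positivity
  have hX0 : 0 < XX d t := XX_pos d (by linarith)
  obtain ⟨R, hR⟩ : ∃ R : ℕ, R = ⌊δ * Real.sqrt t⌋₊ := ⟨_, rfl⟩
  rw [← hR] at hR1 hRL hh ⊢
  intro v v' hvv
  rcases le_or_gt (d * (L : ℝ)) (κH * YS d t) with hcase | hcase
  · -- all distances are small
    refine hh v v' ?_
    have h5 := Pool.Agent.Results.MP_b817cf_pr.LocalPoissonDirichlet.dist_le v v'
    exact h5.trans hcase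
  · have htL2 : t ≤ (L : ℝ) ^ 2 := by
      have h5 : d * Real.sqrt t ≤ d * L := by
        calc (d : ℝ) * Real.sqrt t ≤ d * (c * YS d t) :=
              mul_le_mul_of_nonneg_left h3 (by positivity)
          _ = c * d * YS d t := by ring
          _ ≤ κH * YS d t := mul_le_mul_of_nonneg_right k1 hY0.le
          _ ≤ d * L := hcase.le
      have h6 : Real.sqrt t ≤ L := le_of_mul_le_mul_left h5 (by positivity)
      calc t = Real.sqrt t ^ 2 := (Real.sq_sqrt ht0.le).symm
        _ ≤ (L : ℝ) ^ 2 := pow_le_pow_left₀ hs0.le h6 2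
    -- the small blocks
    obtain ⟨l, hl⟩ : ∃ l : ℕ, l = ⌊c₁ * YS d t⌋₊ := ⟨_, rfl⟩
    have hcY : 2 * Real.sqrt t ≤ c₁ * YS d t := by
      have h5 : 2 * (c * YS d t) ≤ c₁ * YS d t := by
        have := mul_le_mul_of_nonneg_right k4 hY0.le
        linarith
      linarith
    have hlle : (l : ℝ) ≤ c₁ * YS d t := by rw [hl]; exact Nat.floor_le (by positivity)
    have hlge : c₁ / 2 * YS d t ≤ l := by
      have h5 := Nat.lt_floor_add_one (c₁ * YS d t)
      rw [← hl] at h5
      linarith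
    have hlge' : Real.sqrt t ≤ l := by linarith
    have hl1 : 1 ≤ l := by
      have : (1 : ℝ) ≤ l := hs1.trans hlge'
      exact_mod_cast this
    have hlL : 8 * d * l ≤ L := by
      have h5 : (d : ℝ) * (8 * d * l) ≤ d * L := by
        calc (d : ℝ) * (8 * d * l) ≤ d * (8 * d * (c₁ * YS d t)) := by gcongr
          _ = c₁ * (8 * d ^ 2) * YS d t := by ring
          _ ≤ κH * YS d t := mul_le_mul_of_nonneg_right hc₁b hY0.le
          _ ≤ d * L := hcase.le
      have h6 : (8 : ℝ) * d * l ≤ L := le_of_mul_le_mul_left h5 (by positivity)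
      exact_mod_cast h6
    have hlL' : l ≤ L := by
      have h5 : 1 * l ≤ 8 * d * l := Nat.mul_le_mul_right l (by omega)
      omega
    -- the large blocks
    obtain ⟨r₀, hr₀⟩ : ∃ r₀ : ℕ, r₀ = ⌊κ' * XX d t⌋₊ := ⟨_, rfl⟩
    have hr₀le : (r₀ : ℝ) ≤ κ' * XX d t := by rw [hr₀]; exact Nat.floor_le (by positivity)
    have hlr₀ : l ≤ r₀ := by
      rw [hl, hr₀]
      refine Nat.floor_le_floor ?_
      calc c₁ * YS d t ≤ c₁ * (c * XX d t) := mul_le_mul_of_nonneg_left h2 hc₁0.le
        _ = c * c₁ * XX d t := by ring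
        _ ≤ κ' * XX d t := mul_le_mul_of_nonneg_right k7 hX0.le
    obtain ⟨r, hr1, hrL, hlr, hrle, hrv⟩ : ∃ r : ℕ, 1 ≤ r ∧ r ≤ L ∧ (l ∣ r ∨ r = L) ∧
        r ≤ r₀ ∧ (16 * nrm (v - v') ≤ r ∨ r = L) := by
      rcases le_or_gt L r₀ with hcL | hcL
      · exact ⟨L, by omega, le_rfl, Or.inr rfl, hcL, Or.inr rfl⟩
      · have h5 : l * (r₀ / l) ≤ r₀ := Nat.mul_div_le r₀ l
        have h6 : 1 ≤ r₀ / l := Nat.div_pos hlr₀ (by omega)
        have h7 : r₀ < l * (r₀ / l) + l := by
          have := Nat.lt_div_mul_add (a := r₀) (by omega : 0 < l)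
          linarith
        have h8 : l ≤ l * (r₀ / l) := Nat.le_mul_of_pos_right l (by omega)
        refine ⟨l * (r₀ / l), by omega, by omega, Or.inl (Dvd.intro _ rfl), h5, Or.inl ?_⟩
        have h9 : (r₀ : ℝ) ≤ 2 * ((l * (r₀ / l) : ℕ) : ℝ) := by
          have : r₀ ≤ 2 * (l * (r₀ / l)) := by omega
          exact_mod_cast this
        have h10 : κ' * XX d t ≤ 2 * r₀ := by
          have h11 := Nat.lt_floor_add_one (κ' * XX d t)
          rw [← hr₀] at h11
          have h12 : (1 : ℝ) ≤ r₀ := by exact_mod_cast (by omega : 1 ≤ r₀)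
          linarith
        have h13 : ((16 * nrm (v - v') : ℕ) : ℝ) ≤ ((l * (r₀ / l) : ℕ) : ℝ) := by
          rw [Nat.cast_mul]
          calc ((16 : ℕ) : ℝ) * (nrm (v - v') : ℝ) ≤ 16 * (κ' / 64 * XX d t) := by
                push_cast
                exact mul_le_mul_of_nonneg_left hvv (by norm_num)
            _ = κ' * XX d t / 4 := by ring
            _ ≤ ((l * (r₀ / l) : ℕ) : ℝ) := by linarith
        exact_mod_cast h13
    have hrX : (r : ℝ) ≤ κ' * XX d t := by
      refine le_trans ?_ hr₀le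
      exact_mod_cast hrle
    have hmean := hS L hL t t3 htL2 l r hl1 hlL' hlge hr1 hrL hrX hlr
    -- the local comparison
    have hRle : (R : ℝ) ≤ δ * Real.sqrt t := by rw [hR]; exact Nat.floor_le (by positivity)
    have hRge : δ * Real.sqrt t ≤ 2 * R := by
      have h5 := Nat.lt_floor_add_one (δ * Real.sqrt t)
      rw [← hR] at h5
      have h12 : (1 : ℝ) ≤ R := by exact_mod_cast hR1
      linarith
    have hcardB : (Pool.Agent.R517.PDS.box d L R).card = R ^ d := (t_NEAR d L R hR1 hRL 0).1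
    have hloc : ∀ v : Fin d → ZMod L, (bl (blk (phi d L) l) v).card = l ^ d →
        stirExp (nnRate d L) t (fun g => DR g Finset.univ
          (ds ((Pool.Agent.R517.PDS.box d L R).image (fun b => v + b))
            (bl (blk (phi d L) l) v))) ≤ e := by
      intro v hv
      obtain ⟨B, hB⟩ : ∃ B, B = (Pool.Agent.R517.PDS.box d L R).image (fun b => v + b) := ⟨_, rfl⟩
      obtain ⟨S, hSd⟩ : ∃ S, S = bl (blk (phi d L) l) v := ⟨_, rfl⟩
      have hBc : B.card = R ^ d := by
        rw [hB, Finset.card_image_of_injective _ (fun a b h => add_left_cancel h), hcardB]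
      rw [← hB, ← hSd]
      rw [← hSd] at hv
      have hB1 : (R : ℝ) ≤ B.card := by
        rw [hBc]
        exact_mod_cast Nat.le_self_pow (by omega) R
      have hS1 : (l : ℝ) ≤ S.card := by
        rw [hv]
        exact_mod_cast Nat.le_self_pow (by omega) l
      have hRr : (1 : ℝ) ≤ R := by exact_mod_cast hR1
      have hlr' : (1 : ℝ) ≤ l := by exact_mod_cast hl1
      have hB0 : 0 < B.card := by
        have : (0 : ℝ) < B.card := by linarith
        exact_mod_cast this
      have hS0 : 0 < S.card := by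
        have : (0 : ℝ) < S.card := by linarith
        exact_mod_cast this
      have hnear : ∀ a ∈ B ∪ S, (nrm (a - v) : ℝ) ≤ κ₂ / 2 * YS d t := by
        intro a ha
        rcases Finset.mem_union.1 ha with h5 | h5
        · rw [hB, Finset.mem_image] at h5
          obtain ⟨b, hb, rfl⟩ := h5
          have h6 := tdist_box R v b 0 hb (zero_box hR1)
          rw [add_zero, tdist_nrm] at h6
          have h7 : (nrm (v + b - v) : ℝ) ≤ d * R := by exact_mod_cast h6
          calc (nrm (v + b - v) : ℝ) ≤ d * R := h7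
            _ ≤ d * (δ * Real.sqrt t) := mul_le_mul_of_nonneg_left hRle (by positivity)
            _ ≤ d * (δ * (c * YS d t)) := by gcongr
            _ = c * (2 * d * δ) / 2 * YS d t := by ring
            _ ≤ κ₂ / 2 * YS d t := mul_le_mul_of_nonneg_right (by linarith) hY0.le
        · rw [hSd] at h5
          have h6 : (nrm (a - v) : ℝ) ≤ d * l := by exact_mod_cast near_blk hl1 v a h5
          calc (nrm (a - v) : ℝ) ≤ d * l := h6
            _ ≤ d * (c₁ * YS d t) := mul_le_mul_of_nonneg_left hlle (by positivity)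
            _ = c₁ * (4 * d) / 4 * YS d t := by ring
            _ ≤ κ₂ / 2 * YS d t := mul_le_mul_of_nonneg_right (by linarith) hY0.le
      have htwo : ∀ x ∈ B ∪ S, ∀ y ∈ B ∪ S, x ≠ y →
          |PP (nnRate d L) t x y - 1 / 2| ≤ e / 8 := by
        intro x hx y hy hxy
        have h5 := hk L hL (by omega) t t2 1 (by norm_num) x (fun _ => y)
          (fun _ h => hxy h.symm) (fun i j h => absurd (Subsingleton.elim i j) h) (fun _ => by
            have h6 : (nrm (y - x) : ℝ) ≤ nrm (y - v) + nrm (x - v) := by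
              exact_mod_cast nrm_tri y x v
            have h7 := hnear x hx
            have h8 := hnear y hy
            have h9 : κ₂ * t ^ (((d : ℝ) + 1) / (d + 2)) = κ₂ * YS d t := rfl
            rw [h9]
            linarith)
        rw [PP_QQ] at h5
        norm_num at h5 ⊢
        exact h5
      have hsmall := ds_small (J := nnRate d L) nn_nonneg ht0.le B S hB0 hS0 (e / 8)
        (by positivity) htwo
      refine hsmall.trans ?_
      have i1 : 1 / (B.card : ℝ) ≤ e / 4 := by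
        rw [div_le_div_iff₀ (by linarith) (by norm_num)]
        have h5 : 8 * (c * Real.sqrt t) ≤ e * δ * Real.sqrt t := by
          have := mul_le_mul_of_nonneg_right k5 hs0.le
          linarith
        have h6 : e * (δ * Real.sqrt t) ≤ e * (2 * R) := mul_le_mul_of_nonneg_left hRge he0.le
        have h7 : e * (R : ℝ) ≤ e * B.card := mul_le_mul_of_nonneg_left hB1 he0.le
        linarith
      have i2 : 1 / (S.card : ℝ) ≤ e / 4 := by
        rw [div_le_div_iff₀ (by linarith) (by norm_num)]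
        have h5 : 4 * (c * Real.sqrt t) ≤ e * Real.sqrt t := by
          have := mul_le_mul_of_nonneg_right k6 hs0.le
          linarith
        have h6 : e * Real.sqrt t ≤ e * S.card :=
          mul_le_mul_of_nonneg_left (hlge'.trans hS1) he0.le
        linarith
      linarith
    have hfin := hom_core (d := d) (L := L) ht0.le hl1 hlL hr1 hrL (ε / 32) (by positivity)
      hmean (Pool.Agent.R517.PDS.box d L R) e hloc v v' hrv
    refine hfin.trans ?_
    rw [he]
    linarith

end Pool.Agent.Helper47K9.SH
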