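import Pool.Agent.Helper47K9.SH.K5

/-!
# The Poisson-Dirichlet law for sets of diameter `O((t / log t) ^ ((d + 2) / 4))`
-/

set_option autoImplicit false

namespace Pool.Agent.Helper47K9.SH

open Finset Equiv
open Pool.Agent.Y998.ST (stirLaw stirExp hop nnRate lam exp_const exp_nonneg nn_nonneg nn_symm
  nn_diag law_nonneg qq_torus)
open Pool.Agent.Y998.LP (NN bfrac tdist NN_nonneg NN_one law_inv)
open Pool.Agent.Y998.LQ (pd_gen bfrac_nonneg bfrac_le_one)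
open Pool.Agent.TH268.PD (Cyc cyOf frac top pdm lip_approx top_lip top_nonneg top_le_one)
open Pool.Agent.R517.PDS Pool.Agent.R517.PDL
open Pool.Agent.Results.MP_b817cf_pr.LocalPoissonDirichlet (setFrac cycleFrac pdMean)

theorem pd_loc3 (d : ℕ) (hd : 1 ≤ d) (m : ℕ) (f : (Fin m → ℝ) → ℝ) (hf : Continuous f) (C₀ : ℝ)
    (hC₀ : ∀ u, |f u| ≤ C₀) (ε : ℝ) (hε : 0 < ε) :
    ∃ T : ℝ, 0 < T ∧ ∃ κ : ℝ, 0 < κ ∧ ∃ N : ℕ, ∀ (L : ℕ) [NeZero L], 3 ≤ L → ∀ t : ℝ, T ≤ t →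
      ∀ S : Finset (Fin d → ZMod L), N ≤ S.card →
      (∀ x ∈ S, ∀ y ∈ S, (tdist x y : ℝ) ≤ κ * XX d t) →
      |stirExp (nnRate d L) t (fun g => f (fun i => top (bfrac S g) i)) - pdm f| ≤ ε := by
  classical
  obtain ⟨C, hC, hdist⟩ := Pool.Agent.Y998.LQ.t_dist d hd
  obtain ⟨δT, hδT, N₀, hN₀, κT, hκT, htr⟩ := t_TRANS2 m f hf C₀ hC₀ ε hε
  obtain ⟨δ₂, hδ₂, N₂, hN₂, hpd⟩ := pd_gen m f hf C₀ hC₀ ε hε
  obtain ⟨A₁, hA₁, hlong⟩ := long_NN d hd δ₂ hδ₂
  obtain ⟨T₀, hT₀, κ₂, hκ₂, _, htwo⟩ := kloc3 d hd 2 (by norm_num) (κT / 16) (by positivity)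
  have hd1 : (1 : ℝ) ≤ d := by exact_mod_cast hd
  have hsA : 0 < Real.sqrt A₁ := Real.sqrt_pos.2 (by linarith)
  obtain ⟨δ, hδ⟩ : ∃ δ : ℝ, δ = min (1 / Real.sqrt A₁) (min (δT / (C * d)) (κ₂ / (4 * d))) :=
    ⟨_, rfl⟩
  have hδ0 : 0 < δ := by
    rw [hδ]
    exact lt_min (by positivity) (lt_min (by positivity) (by positivity))
  have hδ1 : δ * Real.sqrt A₁ ≤ 1 := by
    have h1 : δ ≤ 1 / Real.sqrt A₁ := by rw [hδ]; exact min_le_left _ _
    rwa [le_div_iff₀ hsA] at h1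
  have hδ2 : C * d * δ ≤ δT := by
    have h1 : δ ≤ δT / (C * d) := by rw [hδ]; exact (min_le_right _ _).trans (min_le_left _ _)
    rw [le_div_iff₀ (by positivity)] at h1
    linarith
  have hδ3 : 4 * d * δ ≤ κ₂ := by
    have h1 : δ ≤ κ₂ / (4 * d) := by rw [hδ]; exact (min_le_right _ _).trans (min_le_right _ _)
    rw [le_div_iff₀ (by positivity)] at h1
    linarith
  obtain ⟨N₃, hN₃⟩ := exists_nat_gt (N₀ + 8 / κT)
  obtain ⟨A₃, hA₃, hsX⟩ := sqrt_le_XX d hd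
  have hN₃pos : (0 : ℝ) < 8 / κT := by positivity
  have hN₀₃ : N₀ ≤ N₃ := by
    have : (N₀ : ℝ) ≤ N₃ := by linarith
    exact_mod_cast this
  have hN₃1 : 1 ≤ N₃ := by
    have h1 : (0 : ℝ) < N₃ := by
      have : (0 : ℝ) ≤ N₀ := by positivity
      linarith
    exact_mod_cast h1
  have hsq : 0 ≤ (((N₃ : ℝ) + 1) / δ) ^ 2 := sq_nonneg _
  refine ⟨T₀ + (((N₃ : ℝ) + 1) / δ) ^ 2 + A₃, by linarith, κ₂ / 4, by positivity, N₂ + N₃, ?_⟩
  intro L _ hL t ht S hS hdis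
  have hL3r : (3 : ℝ) ≤ L := by exact_mod_cast hL
  have ht1 : 1 ≤ t := by linarith
  have ht0 : 0 < t := by linarith
  rcases le_total t (A₁ * (L : ℝ) ^ 2) with hcase | hcase
  · obtain ⟨X, hX⟩ : ∃ X : ℝ, X = XX d t := ⟨_, rfl⟩
    rw [← hX] at hdis
    have hX1 : Real.sqrt t ≤ X := by rw [hX]; exact hsX t (by linarith)
    have hX0 : 0 < X := lt_of_lt_of_le (Real.sqrt_pos.2 ht0) hX1
    obtain ⟨R, hR⟩ : ∃ R : ℕ, R = ⌊δ * Real.sqrt t⌋₊ := ⟨_, rfl⟩
    have hRle : (R : ℝ) ≤ δ * Real.sqrt t := by rw [hR]; exact Nat.floor_le (by positivity)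
    have hN : N₃ ≤ R := by
      rw [hR]
      refine Nat.le_floor ?_
      have h1 : ((N₃ : ℝ) + 1) / δ ≤ Real.sqrt t := Real.le_sqrt_of_sq_le (by linarith)
      rw [div_le_iff₀ hδ0] at h1
      linarith
    have hR1 : 1 ≤ R := hN₃1.trans hN
    have hRL : R ≤ L := by
      have h1 : Real.sqrt t ≤ Real.sqrt A₁ * L := by
        refine Real.sqrt_le_iff.2 ⟨by positivity, ?_⟩
        rw [mul_pow, Real.sq_sqrt (by linarith)]
        exact hcase
      have h2 : (R : ℝ) ≤ L := by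
        calc (R : ℝ) ≤ δ * Real.sqrt t := hRle
          _ ≤ δ * (Real.sqrt A₁ * L) := mul_le_mul_of_nonneg_left h1 hδ0.le
          _ = (δ * Real.sqrt A₁) * L := by ring
          _ ≤ 1 * L := mul_le_mul_of_nonneg_right hδ1 (by linarith)
          _ = L := one_mul _
      exact_mod_cast h2
    have hcard : (Pool.Agent.R517.PDS.box d L R).card = R ^ d := (t_NEAR d L R hR1 hRL 0).1
    have hSpos : 0 < S.card := by omega
    obtain ⟨x₀, hx₀⟩ := Finset.card_pos.1 hSpos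
    obtain ⟨B, hB⟩ : ∃ B : Finset (Fin d → ZMod L), B = (Pool.Agent.R517.PDS.box d L R).image fun b => x₀ + b :=
      ⟨_, rfl⟩
    have hBcard : B.card = R ^ d := by
      rw [hB, Finset.card_image_of_injective _ (fun a b h => add_left_cancel h), hcard]
    have hBN : N₃ ≤ B.card := by
      rw [hBcard]
      exact hN.trans (Nat.le_self_pow (by omega) R)
    have hBpos : 0 < B.card := by omega
    have hBr : (N₃ : ℝ) ≤ B.card := by exact_mod_cast hBN
    have hSr : (N₃ : ℝ) ≤ S.card := by exact_mod_cast (by omega : N₃ ≤ S.card)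
    -- distances
    have hnear : ∀ a ∈ B ∪ S, (nrm (a - x₀) : ℝ) ≤ κ₂ / 2 * X := by
      intro a ha
      rcases Finset.mem_union.1 ha with h1 | h1
      · rw [hB, Finset.mem_image] at h1
        obtain ⟨b, hb, rfl⟩ := h1
        have h2 := tdist_box R x₀ b 0 hb (zero_box hR1)
        rw [add_zero, tdist_nrm] at h2
        have h3 : (nrm (x₀ + b - x₀) : ℝ) ≤ d * R := by exact_mod_cast h2
        calc (nrm (x₀ + b - x₀) : ℝ) ≤ d * R := h3
          _ ≤ d * (δ * Real.sqrt t) := mul_le_mul_of_nonneg_left hRle (by positivity)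
          _ ≤ d * (δ * X) := by
              refine mul_le_mul_of_nonneg_left ?_ (by positivity)
              exact mul_le_mul_of_nonneg_left hX1 hδ0.le
          _ = (4 * d * δ) / 4 * X := by ring
          _ ≤ κ₂ / 4 * X := mul_le_mul_of_nonneg_right (by linarith) hX0.le
          _ ≤ κ₂ / 2 * X := mul_le_mul_of_nonneg_right (by linarith) hX0.le
      · have h2 := hdis a h1 x₀ hx₀
        rw [tdist_nrm] at h2
        refine h2.trans (mul_le_mul_of_nonneg_right (by linarith) hX0.le)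
    have htwo' : ∀ x ∈ B ∪ S, ∀ y ∈ B ∪ S, x ≠ y →
        |PP (nnRate d L) t x y - 1 / 2| ≤ κT / 16 := by
      intro x hx y hy hxy
      have h1 := htwo L hL (by omega) t (by linarith) 1 (by norm_num) x (fun _ => y)
        (fun _ h => hxy h.symm) (fun i j h => absurd (Subsingleton.elim i j) h) (fun _ => by
          have h2 : (nrm (y - x) : ℝ) ≤ nrm (y - x₀) + nrm (x - x₀) := by
            exact_mod_cast nrm_tri y x x₀
          have h3 := hnear x hx
          have h4 := hnear y hy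
          rw [← hX]
          linarith)
      rw [PP_QQ] at h1
      norm_num at h1 ⊢
      exact h1
    have hsmall := ds_small (J := nnRate d L) nn_nonneg ht0.le B S hBpos hSpos (κT / 16)
      (by positivity) htwo'
    have hinv : ∀ M : ℝ, (N₃ : ℝ) ≤ M → 1 / M ≤ κT / 8 := by
      intro M hM
      have h1 : 8 / κT ≤ M := by
        have : (0 : ℝ) ≤ N₀ := by positivity
        linarith
      have hM0 : 0 < M := lt_of_lt_of_le hN₃pos h1
      rw [div_le_iff₀ hκT] at h1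
      rw [div_le_iff₀ hM0]
      linarith
    have key := htr (Fin d → ZMod L) (nnRate d L) nn_nonneg t ht0.le B (hN₀₃.trans hBN) (by
        intro x hx y hy
        rw [hB, Finset.mem_image] at hx hy
        obtain ⟨a, ha, rfl⟩ := hx
        obtain ⟨b, hb, rfl⟩ := hy
        rw [hR] at ha hb
        exact (NN_box C hC t ht0 (hdist L hL t ht0) δ hδ0 x₀ a b ha hb).trans hδ2) S (by
        refine hsmall.trans ?_
        have h1 := hinv _ hBr
        have h2 := hinv _ hSr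
        linarith)
    exact key
  · exact hpd (Fin d → ZMod L) (nnRate d L) nn_nonneg t ht0.le S (by omega)
      (fun x _ y _ => hlong L hL t hcase x y)


/-- the whole torus is within the scale -/
theorem glob (d : ℕ) (κ : ℝ) (hκ : 0 < κ) : ∃ A : ℝ, 1 ≤ A ∧
    ∀ (L : ℕ) [NeZero L] (t : ℝ), 2 ≤ t → A * (L : ℝ) ^ (4 / ((d : ℝ) + 2)) ≤ t / Real.log t →
      d * (L : ℝ) ≤ κ * XX d t := by
  obtain ⟨A, hA⟩ : ∃ A : ℝ, A = max 1 ((d / κ) ^ (4 / ((d : ℝ) + 2))) := ⟨_, rfl⟩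
  refine ⟨A, by rw [hA]; exact le_max_left _ _, ?_⟩
  intro L _ t ht h
  have hLr : (0 : ℝ) < L := by exact_mod_cast (Nat.pos_of_ne_zero (NeZero.ne L))
  have hA1 : 1 ≤ A := by rw [hA]; exact le_max_left _ _
  have h1 : (A * (L : ℝ) ^ (4 / ((d : ℝ) + 2))) ^ (((d : ℝ) + 2) / 4) ≤ XX d t := by
    unfold XX
    exact Real.rpow_le_rpow (by positivity) h (by positivity)
  have h2 : (A * (L : ℝ) ^ (4 / ((d : ℝ) + 2))) ^ (((d : ℝ) + 2) / 4) =
      A ^ (((d : ℝ) + 2) / 4) * L := by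
    rw [Real.mul_rpow (by linarith) (by positivity), ← Real.rpow_mul hLr.le]
    have : 4 / ((d : ℝ) + 2) * (((d : ℝ) + 2) / 4) = 1 := by
      field_simp
    rw [this, Real.rpow_one]
  have h3 : d / κ ≤ A ^ (((d : ℝ) + 2) / 4) := by
    have h4 : (d / κ) ^ (4 / ((d : ℝ) + 2)) ≤ A := by rw [hA]; exact le_max_right _ _
    have h5 := Real.rpow_le_rpow (by positivity) h4 (by positivity : 0 ≤ ((d : ℝ) + 2) / 4)
    rw [← Real.rpow_mul (by positivity)] at h5
    have : 4 / ((d : ℝ) + 2) * (((d : ℝ) + 2) / 4) = 1 := by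
      field_simp
    rwa [this, Real.rpow_one] at h5
  rw [div_le_iff₀ hκ] at h3
  rw [h2] at h1
  calc (d : ℝ) * L ≤ (A ^ (((d : ℝ) + 2) / 4) * κ) * L := mul_le_mul_of_nonneg_right h3 hLr.le
    _ = κ * (A ^ (((d : ℝ) + 2) / 4) * L) := by ring
    _ ≤ κ * XX d t := mul_le_mul_of_nonneg_left h1 hκ.le

/-- times with `t / log t` large are large -/
theorem t_large {t : ℝ} (ht : 2 ≤ t) {B : ℝ} (h : B ≤ t / Real.log t) : B / 2 ≤ t := by
  have h1 : 1 / 2 ≤ Real.log t := Pool.Agent.Y998.CN.log_ge ht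
  have h2 : t / Real.log t ≤ 2 * t := by
    rw [div_le_iff₀ (by linarith)]
    nlinarith
  linarith

/-- the sets and the whole torus -/
theorem pd_both3 (d : ℕ) (hd : 1 ≤ d) (m : ℕ) (f : (Fin m → ℝ) → ℝ) (hf : Continuous f) (C₀ : ℝ)
    (hC₀ : ∀ u, |f u| ≤ C₀) (ε : ℝ) (hε : 0 < ε) :
    (∃ T : ℝ, 0 < T ∧ ∃ κ : ℝ, 0 < κ ∧ ∃ N : ℕ, ∀ (L : ℕ) [NeZero L], 3 ≤ L → ∀ t : ℝ, T ≤ t →
      ∀ S : Finset (Fin d → ZMod L), N ≤ S.card →
      (∀ x ∈ S, ∀ y ∈ S,
        (Pool.Agent.Results.MP_b817cf_pr.LocalPoissonDirichlet.torusDist x y : ℝ) ≤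
          κ * (t / Real.log t) ^ (((d : ℝ) + 2) / 4)) →
      |stirExp (nnRate d L) t (fun g => f (fun i : Fin m => setFrac S g i)) - pdMean f| ≤ ε) ∧
    ∃ A : ℝ, 0 < A ∧ ∀ (L : ℕ) [NeZero L], A ≤ L → ∀ t : ℝ, 2 ≤ t →
      A * (L : ℝ) ^ (4 / ((d : ℝ) + 2)) ≤ t / Real.log t →
      |stirExp (nnRate d L) t (fun g => f (fun i : Fin m => cycleFrac g i)) - pdMean f| ≤ ε := by
  obtain ⟨T, hT, κ, hκ, N, h⟩ := pd_loc3 d hd m f hf C₀ hC₀ ε hε
  refine ⟨⟨T, hT, κ, hκ, N, fun L _ hL t ht S hS hdis => h L hL t ht S hS hdis⟩, ?_⟩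
  obtain ⟨A₀, hA₀, hglob⟩ := glob d κ hκ
  have hN0 : (0 : ℝ) ≤ N := by positivity
  refine ⟨3 + 2 * T + N + A₀, by positivity, ?_⟩
  intro L _ hAL t ht2 ht
  have hL3r : (3 : ℝ) ≤ L := by linarith
  have hL : 3 ≤ L := by exact_mod_cast hL3r
  have hL0 : (0 : ℝ) < L := by linarith
  have hLα : (1 : ℝ) ≤ (L : ℝ) ^ (4 / ((d : ℝ) + 2)) :=
    Real.one_le_rpow (by linarith) (by positivity)
  have h1 : A₀ * (L : ℝ) ^ (4 / ((d : ℝ) + 2)) ≤ t / Real.log t := by
    refine le_trans (mul_le_mul_of_nonneg_right ?_ (by linarith)) ht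
    linarith
  have htT : T ≤ t := by
    have h2 : 2 * T ≤ t / Real.log t := by
      refine le_trans ?_ ht
      have h3 : 3 + 2 * T + N + A₀ ≤
          (3 + 2 * T + N + A₀) * (L : ℝ) ^ (4 / ((d : ℝ) + 2)) :=
        le_mul_of_one_le_right (by linarith) hLα
      linarith
    have := t_large ht2 h2
    linarith
  have hcard : N ≤ (Finset.univ : Finset (Fin d → ZMod L)).card := by
    rw [Finset.card_univ, Fintype.card_fun, ZMod.card, Fintype.card_fin]
    have h2 : N ≤ L := by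
      have h1 : (N : ℝ) ≤ L := by linarith
      exact_mod_cast h1
    exact h2.trans (Nat.le_self_pow (by omega) L)
  have hkey := h L hL t htT Finset.univ hcard (fun x _ y _ => by
    have h3 := Pool.Agent.Results.MP_b817cf_pr.LocalPoissonDirichlet.dist_le x y
    exact h3.trans (hglob L t ht2 h1))
  simp only [Pool.Agent.Results.MP_b817cf_pr.LocalPoissonDirichlet.frac_eq]
  exact hkey

open Classical in
/-- the `k`-point function -/
theorem kpt3 (d : ℕ) (hd : 1 ≤ d) (k : ℕ) (hk : 1 ≤ k) (ε : ℝ) (hε : 0 < ε) :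
    ∃ T : ℝ, 0 < T ∧ ∃ κ : ℝ, 0 < κ ∧ ∀ (L : ℕ) [NeZero L], 3 ≤ L → ∀ t : ℝ, T ≤ t →
      ∀ b : Fin k → Fin d → ZMod L, Function.Injective b →
      (∀ i j, (tdist (b i) (b j) : ℝ) ≤ κ * XX d t) →
      |stirExp (nnRate d L) t (fun g => if ∀ i j, g.SameCycle (b i) (b j) then 1 else 0) -
        1 / k| ≤ ε := by
  have hk1 : (1 : ℝ) ≤ k := by exact_mod_cast hk
  obtain ⟨T₀, hT₀, κ, hκ, _, h⟩ := kloc3 d hd k hk ε hε
  obtain ⟨A₁, hA₁, hlong⟩ := long_NN d hd (ε / k) (by positivity)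
  refine ⟨T₀ + A₁ * (k : ℝ) ^ 2, by positivity, κ, hκ, ?_⟩
  intro L _ hL t ht b hb hdis
  have hAk : 0 ≤ A₁ * (k : ℝ) ^ 2 := by positivity
  have hunf : stirExp (nnRate d L) t
      (fun g => if ∀ i j, g.SameCycle (b i) (b j) then (1 : ℝ) else 0) =
      ∑ g, stirLaw (nnRate d L) t g *
        (open Classical in if ∀ i j, g.SameCycle (b i) (b j) then (1 : ℝ) else 0) := rfl
  by_cases hkL : k ≤ L
  · obtain ⟨n, hn⟩ : ∃ n : ℕ, k = n + 1 := ⟨k - 1, by omega⟩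
    subst hn
    have h1 := h L hL hkL t (by linarith) n le_rfl (b 0) (fun i => b i.succ)
      (fun i h' => (Fin.succ_ne_zero i) (hb h'))
      (fun i j hij h' => hij (Fin.succ_injective _ (hb h')))
      (fun i => by
        have := hdis i.succ 0
        rwa [tdist_nrm] at this)
    have h2 : QQ (nnRate d L) t (b 0) (fun i => b i.succ) =
        ∑ g, stirLaw (nnRate d L) t g *
        (open Classical in if ∀ i j, g.SameCycle (b i) (b j) then (1 : ℝ) else 0) := by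
      unfold QQ stirExp
      refine Finset.sum_congr rfl fun g _ => ?_
      beta_reduce
      rw [II_eq]
    rw [h2] at h1
    rw [hunf]
    push_cast
    exact h1
  · have hLk : (L : ℝ) ≤ k := by exact_mod_cast (by omega : L ≤ k)
    have hL2 : A₁ * (L : ℝ) ^ 2 ≤ A₁ * (k : ℝ) ^ 2 :=
      mul_le_mul_of_nonneg_left (pow_le_pow_left₀ (by positivity) hLk 2) (by linarith)
    have h5 := one_cycle (nnRate d L) t hk b hb (ε / k) (by positivity)
      (fun i j => hlong L hL t (by linarith) (b i) (b j))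
    rw [hunf]
    refine h5.trans (le_of_eq ?_)
    field_simp

end Pool.Agent.Helper47K9.SH
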