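import Pool.Agent.Helper47K9.SH.K7
import Pool.Agent.Helper47K9.SH.K8
import Pool.Agent.R134.PB.TopS
import Pool.Agent.R134.PB.Pds

/-!
# Macroscopic cycles
-/

set_option autoImplicit false

namespace Pool.Agent.Helper47K9.SH

open Finset Equiv
open Pool.Agent.Y998.ST
open Pool.Agent.R134.PB

open Classical in
/-- typical points are in macroscopic cycles -/
theorem giant3 (d : ℕ) (hd : 1 ≤ d) (η : ℝ) (hη : 0 < η) :
    ∃ c : ℝ, 0 < c ∧ ∃ A : ℝ, 0 < A ∧ ∀ (L : ℕ) [NeZero L], 3 ≤ L → ∀ t : ℝ, 2 ≤ t →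
      A * (L : ℝ) ^ (4 / ((d : ℝ) + 2)) ≤ t / Real.log t → ∀ v : Fin d → ZMod L,
      stirExp (nnRate d L) t (fun g => if (cycleLen g v : ℝ) ≤ c * (L : ℝ) ^ d
        then (1 : ℝ) else 0) ≤ η := by
  obtain ⟨c, hc, h⟩ := typ3 d hd η hη
  obtain ⟨A, hA, hglob⟩ := glob d 1 one_pos
  have hd1 : (1 : ℝ) ≤ d := by exact_mod_cast hd
  refine ⟨c, hc, A, by linarith, ?_⟩
  intro L _ hL t ht h1 v
  have h2 := hglob L t ht h1
  have hL0 : (0 : ℝ) ≤ L := by positivity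
  have h3 : (L : ℝ) ≤ XX d t := by
    have : (L : ℝ) ≤ d * L := le_mul_of_one_le_left hL0 hd1
    linarith
  have h4 := h L hL t ht v
  rwa [min_eq_right h3] at h4

open Classical in
/-- The mass of the longest cycles. -/
theorem mass3 (d : ℕ) (hd : 1 ≤ d) (η : ℝ) (hη : 0 < η) :
    ∃ k : ℕ, ∃ A : ℝ, 0 < A ∧ ∀ (L : ℕ) [NeZero L], 3 ≤ L → ∀ t : ℝ, 2 ≤ t →
      A * (L : ℝ) ^ (4 / ((d : ℝ) + 2)) ≤ t / Real.log t →
      1 - η ≤ ∑ i ∈ Finset.range k, stirExp (nnRate d L) t (fun g => pf g i) := by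
  obtain ⟨c, hc, A, hA, h⟩ := giant3 d hd η hη
  obtain ⟨k, hk⟩ := exists_nat_gt (1 / c)
  refine ⟨k, A, hA, fun L _ hL3 t ht2 ht => ?_⟩
  have hL1 : (1 : ℝ) ≤ L := by exact_mod_cast (show 1 ≤ L by omega)
  have hL0 : (0 : ℝ) < L := by linarith
  have ht0 : 0 < t := by linarith
  have hkc : 1 ≤ k * c := by
    rw [div_lt_iff₀ hc] at hk
    exact hk.le
  have hJ0 : ∀ x y, 0 ≤ nnRate d L x y := fun x y => by
    unfold nnRate
    split_ifs <;> norm_num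
  have hN : (Fintype.card (Fin d → ZMod L) : ℝ) = (L : ℝ) ^ d := by
    rw [Fintype.card_fun, ZMod.card, Fintype.card_fin]
    push_cast
    rfl
  have hN0 : (0 : ℝ) < (L : ℝ) ^ d := by positivity
  have h1 : ∀ g : Perm (Fin d → ZMod L), 1 - (∑ v : Fin d → ZMod L,
      (if (cycleLen g v : ℝ) ≤ c * (L : ℝ) ^ d then (1 : ℝ) else 0)) * (1 / (L : ℝ) ^ d) ≤
      ∑ i ∈ Finset.range k, pf g i := by
    intro g
    refine le_trans (le_of_eq ?_) (TopS.main (Fin d → ZMod L) g k c hc hkc)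
    rw [hN]
    have h2 : (Nat.card {v : Fin d → ZMod L // c * (L : ℝ) ^ d < cycleLen g v} : ℝ) =
        ∑ v : Fin d → ZMod L, (if c * (L : ℝ) ^ d < cycleLen g v then (1 : ℝ) else 0) := by
      rw [Nat.card_eq_fintype_card, Fintype.card_subtype, Finset.sum_boole]
    have h3 : (∑ v : Fin d → ZMod L, (if c * (L : ℝ) ^ d < cycleLen g v then (1 : ℝ) else 0)) +
        ∑ v : Fin d → ZMod L, (if (cycleLen g v : ℝ) ≤ c * (L : ℝ) ^ d then (1 : ℝ) else 0) =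
        (L : ℝ) ^ d := by
      rw [← Finset.sum_add_distrib, Finset.sum_congr rfl (g := fun _ => (1 : ℝ))]
      · rw [Finset.sum_const, Finset.card_univ, nsmul_eq_mul, mul_one, hN]
      · intro v _
        by_cases h4 : (cycleLen g v : ℝ) ≤ c * (L : ℝ) ^ d
        · rw [if_pos h4, if_neg (not_lt.2 h4), zero_add]
        · rw [if_neg h4, if_pos (not_le.1 h4), add_zero]
    rw [h2, eq_div_iff hN0.ne', sub_mul, mul_assoc, one_div, inv_mul_cancel₀ hN0.ne', mul_one,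
      one_mul]
    linarith
  have h5 : stirExp (nnRate d L) t (fun g => 1 - (∑ v : Fin d → ZMod L,
      (if (cycleLen g v : ℝ) ≤ c * (L : ℝ) ^ d then (1 : ℝ) else 0)) * (1 / (L : ℝ) ^ d)) ≤
      stirExp (nnRate d L) t (fun g => ∑ i ∈ Finset.range k, pf g i) :=
    exp_mono hJ0 ht0.le h1
  rw [← exp_sum] at h5
  refine le_trans ?_ h5
  have h9 := Pds.exp_sub' (nnRate d L) t (fun _ => (1 : ℝ)) (fun g => (∑ v : Fin d → ZMod L,
      (if (cycleLen g v : ℝ) ≤ c * (L : ℝ) ^ d then (1 : ℝ) else 0)) * (1 / (L : ℝ) ^ d))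
  rw [exp_const] at h9
  refine le_trans ?_ (le_of_eq h9)
  have h6 : stirExp (nnRate d L) t (fun g => (∑ v : Fin d → ZMod L,
      (if (cycleLen g v : ℝ) ≤ c * (L : ℝ) ^ d then (1 : ℝ) else 0)) * (1 / (L : ℝ) ^ d)) =
      (∑ v : Fin d → ZMod L, stirExp (nnRate d L) t (fun g =>
        if (cycleLen g v : ℝ) ≤ c * (L : ℝ) ^ d then (1 : ℝ) else 0)) * (1 / (L : ℝ) ^ d) := by
    rw [exp_sum]
    unfold stirExp
    rw [Finset.sum_mul]
    exact Finset.sum_congr rfl fun g _ => by ring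
  have h7 : ∑ v : Fin d → ZMod L, stirExp (nnRate d L) t (fun g =>
        if (cycleLen g v : ℝ) ≤ c * (L : ℝ) ^ d then (1 : ℝ) else 0) ≤ (L : ℝ) ^ d * η := by
    calc _ ≤ ∑ _v : Fin d → ZMod L, η := Finset.sum_le_sum fun v _ => h L hL3 t ht2 ht v
      _ = (L : ℝ) ^ d * η := by
          rw [Finset.sum_const, Finset.card_univ, nsmul_eq_mul, hN]
  have h8 : (∑ v : Fin d → ZMod L, stirExp (nnRate d L) t (fun g =>
        if (cycleLen g v : ℝ) ≤ c * (L : ℝ) ^ d then (1 : ℝ) else 0)) * (1 / (L : ℝ) ^ d) ≤ η := by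
    rw [mul_one_div, div_le_iff₀ hN0]
    linarith
  rw [h6]
  linarith

end Pool.Agent.Helper47K9.SH
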