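import Pool.Agent.Helper47K9.SH.Hom
import Pool.Agent.Helper47K9.SH.Asym
import Pool.Agent.Y259.CN.CG
import Pool.Agent.Y375.CN.EN
import Pool.Agent.Y641.CN.PB
import Pool.Agent.Y154.CN.PR

/-!
# The choice of the parameters
-/

set_option autoImplicit false

namespace Pool.Agent.Helper47K9.SH

open Finset Equiv Pool.Agent.Y998.ST Pool.Agent.Y998.CN
open Pool.Agent.R517.PDS (DR)
open Pool.Agent.R517.PDL (ds nrm dif)

theorem rho_half (d : ℕ) {t : ℝ} (ht : 4 ≤ t) : rho d (t / 2) ≤ 2 ^ d * rho d t := by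
  have ht0 : 0 < t := by linarith
  have hlog : 0 < Real.log (t / 2) := Real.log_pos (by linarith)
  unfold rho
  have h1 : (t / 2) ^ (-((d : ℝ) / 2)) ≤ 2 ^ d * t ^ (-((d : ℝ) / 2)) := by
    rw [Real.div_rpow ht0.le (by norm_num), div_le_iff₀ (by positivity)]
    have h2 : (1 : ℝ) ≤ 2 ^ d * (2 : ℝ) ^ (-((d : ℝ) / 2)) := by
      rw [← Real.rpow_natCast, ← Real.rpow_add (by norm_num)]
      refine Real.one_le_rpow (by norm_num) ?_
      have : (0 : ℝ) ≤ d := by positivity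
      linarith
    have h3 : 0 ≤ t ^ (-((d : ℝ) / 2)) := by positivity
    nlinarith
  have h2 : Real.log (t / 2) ^ (1 + (d : ℝ) / 2) ≤ Real.log t ^ (1 + (d : ℝ) / 2) :=
    Real.rpow_le_rpow hlog.le (Real.log_le_log (by linarith) (by linarith)) (by positivity)
  calc (t / 2) ^ (-((d : ℝ) / 2)) * Real.log (t / 2) ^ (1 + (d : ℝ) / 2) ≤
        (2 ^ d * t ^ (-((d : ℝ) / 2))) * Real.log t ^ (1 + (d : ℝ) / 2) :=
        mul_le_mul h1 h2 (by positivity) (by positivity)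
    _ = _ := by ring

/-- the trace at half the time -/
theorem Z_half (d : ℕ) (hd : 1 ≤ d) : ∃ C : ℝ, 0 < C ∧ ∀ (L : ℕ) [NeZero L] (t : ℝ), 4 ≤ t →
    t ≤ (L : ℝ) ^ 2 → Zf 2 (nnRate d L) (t / 2) ≤ Real.exp (C * (L : ℝ) ^ d * rho d t) := by
  obtain ⟨C, hC, h⟩ := main_bound Pool.Agent.Y641.CN.t_PB Pool.Agent.Y154.CN.t_PR
    Pool.Agent.Y950.CN.t_PATH (Pool.Agent.Y259.CN.t_CG Pool.Agent.Y375.CN.EN.t_EN) d 2 hd (by norm_num)
  refine ⟨C * 2 ^ d, by positivity, ?_⟩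
  intro L _ t ht htL
  refine (h L (Fin d → ZMod L) (phi d L) (nnRate d L) nn_nonneg nn_adj (t / 2) (by linarith)
    (by linarith)).trans ?_
  refine Real.exp_le_exp.2 ?_
  have h1 := mul_le_mul_of_nonneg_left (rho_half d ht) (by positivity : 0 ≤ C * (L : ℝ) ^ d)
  refine h1.trans (le_of_eq ?_)
  ring

theorem refine_blk {d L : ℕ} [NeZero L] {l r : ℕ} (h : l ∣ r ∨ r = L) (x y : Fin d → ZMod L)
    (hxy : blk (phi d L) l x = blk (phi d L) l y) : blk (phi d L) r x = blk (phi d L) r y := by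
  rw [blk_eq_iff] at hxy ⊢
  intro k
  rcases h with ⟨m, rfl⟩ | h
  · rw [← Nat.div_div_eq_div_mul, ← Nat.div_div_eq_div_mul, hxy k]
  · rw [h, Nat.div_eq_of_lt (ZMod.val_lt _), Nat.div_eq_of_lt (ZMod.val_lt _)]

theorem count_blocks (d : ℕ) {L l : ℕ} (hl : 1 ≤ l) (hlL : l ≤ L) :
    (2 : ℝ) ^ Fintype.card (Fin d → Fin (L / l + 1)) ≤
      Real.exp ((L : ℝ) ^ d * (2 / l) ^ d) := by
  have hlr : (0 : ℝ) < l := by exact_mod_cast hl
  have h1 : (2 : ℝ) ^ Fintype.card (Fin d → Fin (L / l + 1)) =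
      Real.exp (Fintype.card (Fin d → Fin (L / l + 1)) * Real.log 2) := by
    rw [← Real.exp_log (by positivity : (0 : ℝ) < 2 ^ Fintype.card (Fin d → Fin (L / l + 1))),
      Real.log_pow]
  rw [h1]
  refine Real.exp_le_exp.2 ?_
  rw [Fintype.card_fun, Fintype.card_fin, Fintype.card_fin]
  have h2 : ((L / l + 1 : ℕ) : ℝ) ≤ L * (2 / l) := by
    push_cast
    have h9 : ((L / l : ℕ) : ℝ) ≤ (L : ℝ) / l := Nat.cast_div_le
    have h10 : (1 : ℝ) ≤ L / l := by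
      rw [le_div_iff₀ hlr, one_mul]
      exact_mod_cast hlL
    have h11 : (L : ℝ) * (2 / l) = L / l + L / l := by ring
    linarith
  have h3 : (((L / l + 1) ^ d : ℕ) : ℝ) ≤ (L : ℝ) ^ d * (2 / l) ^ d := by
    rw [← mul_pow]
    push_cast
    push_cast at h2
    exact pow_le_pow_left₀ (by positivity) h2 d
  have h4 : Real.log 2 ≤ 1 := by
    have := Real.log_two_lt_d9
    linarith
  have h5 : 0 ≤ Real.log 2 := Real.log_nonneg (by norm_num)
  calc (((L / l + 1) ^ d : ℕ) : ℝ) * Real.log 2 ≤ (L : ℝ) ^ d * (2 / l) ^ d * 1 :=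
        mul_le_mul h3 h4 h5 (by positivity)
    _ = _ := mul_one _

/-- the mean deviation of the densities in the small and the large blocks is small -/
theorem S_small (d : ℕ) (hd : 1 ≤ d) (ε : ℝ) (hε : 0 < ε) (c₀ : ℝ) (hc₀ : 0 < c₀) :
    ∃ κ : ℝ, 0 < κ ∧ ∃ A : ℝ, 4 ≤ A ∧ ∀ (L : ℕ) [NeZero L], 3 ≤ L → ∀ t : ℝ, A ≤ t →
      t ≤ (L : ℝ) ^ 2 → ∀ l r : ℕ, 1 ≤ l → l ≤ L → c₀ * YS d t ≤ l → 1 ≤ r → r ≤ L →
      (r : ℝ) ≤ κ * XX d t → (l ∣ r ∨ r = L) →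
      ∑ v, stirExp (nnRate d L) t (fun g => DR g Finset.univ
        (ds (bl (blk (phi d L) l) v) (bl (blk (phi d L) r) v))) ≤ ε * (L : ℝ) ^ d := by
  obtain ⟨C, hC, hZ⟩ := Z_half d hd
  have hd1 : (1 : ℝ) ≤ d := by exact_mod_cast hd
  obtain ⟨C', hC'⟩ : ∃ C' : ℝ, C' = 1 + C := ⟨_, rfl⟩
  have hC'0 : 0 < C' := by rw [hC']; linarith
  -- the constant for the large blocks
  obtain ⟨κ, hκ⟩ : ∃ κ : ℝ, κ = Real.sqrt (ε ^ 2 / (128 * d * (128 * C'))) := ⟨_, rfl⟩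
  have hκ0 : 0 < κ := by rw [hκ]; exact Real.sqrt_pos.2 (by positivity)
  have hκ2 : 128 * d * κ ^ 2 = ε ^ 2 / (128 * C') := by
    rw [hκ, Real.sq_sqrt (by positivity)]
    field_simp
  -- the small constant
  obtain ⟨c, hc⟩ : ∃ c : ℝ, c = min (min (ε / (24 * C')) (c₀ / 2))
    (ε ^ 2 * c₀ / (16 * d * (128 * C'))) := ⟨_, rfl⟩
  have hc0 : 0 < c := by
    rw [hc]
    exact lt_min (lt_min (by positivity) (by positivity)) (by positivity)
  have hc1 : c ≤ ε / (24 * C') := by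
    rw [hc]; exact (min_le_left _ _).trans (min_le_left _ _)
  have hc2 : c ≤ c₀ / 2 := by
    rw [hc]; exact (min_le_left _ _).trans (min_le_right _ _)
  have hc3 : c ≤ ε ^ 2 * c₀ / (16 * d * (128 * C')) := by
    rw [hc]; exact min_le_right _ _
  obtain ⟨A, hA4, hA⟩ := asym d hd c hc0
  refine ⟨κ, hκ0, A, hA4, ?_⟩
  intro L _ hL t htA htL l r hl hlL hlY hr hrL hrX hlr
  obtain ⟨h1, h2, h3, h4⟩ := hA t htA
  have ht4 : 4 ≤ t := hA4.trans htA
  have ht0 : 0 < t := by linarith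
  have ht1 : 1 ≤ t := by linarith
  have hρ : 0 < rho d t := rho_pos d (by linarith)
  obtain ⟨ρ, hρe⟩ : ∃ ρ, ρ = rho d t := ⟨_, rfl⟩
  have hlr0 : (0 : ℝ) < l := by exact_mod_cast hl
  have hrr0 : (0 : ℝ) < r := by exact_mod_cast hr
  have hLr0 : (0 : ℝ) < L := by exact_mod_cast (by omega : 0 < L)
  have hN : (0 : ℝ) < (L : ℝ) ^ d := by positivity
  -- rho is small
  have hρc : ρ ≤ c := by
    rw [hρe]
    refine le_trans ?_ h1
    have : 1 ≤ t ^ (1 / ((d : ℝ) + 2)) := Real.one_le_rpow ht1 (by positivity)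
    nlinarith
  have hρ0 : 0 < ρ := by rw [hρe]; exact hρ
  -- mu
  obtain ⟨μ, hμ⟩ : ∃ μ : ℝ, μ = 8 * C' * ρ / ε := ⟨_, rfl⟩
  have hμ0 : 0 < μ := by rw [hμ]; positivity
  have hμ3 : 3 * μ ≤ 1 := by
    rw [hμ]
    have h5 : ρ * (24 * C') ≤ ε := by
      have := hρc.trans hc1
      rwa [le_div_iff₀ (by positivity)] at this
    have h6 : 3 * (8 * C' * ρ / ε) = ρ * (24 * C') / ε := by ring
    rw [h6, div_le_one hε]
    exact h5
  -- the sizes of the terms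
  have hsq : (2 / (l : ℝ)) ^ d ≤ ρ := by
    have h5 : 2 * Real.sqrt t ≤ l := by
      have h6 : c * YS d t ≤ c₀ / 2 * YS d t := by
        refine mul_le_mul_of_nonneg_right hc2 ?_
        unfold YS
        positivity
      linarith
    have hs0 : 0 < Real.sqrt t := Real.sqrt_pos.2 ht0
    have h6 : 2 / (l : ℝ) ≤ 1 / Real.sqrt t := by
      rw [div_le_div_iff₀ hlr0 hs0]
      linarith
    have h7 := pow_le_pow_left₀ (by positivity) h6 d
    refine h7.trans ?_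
    have h8 : (1 / Real.sqrt t) ^ d = t ^ (-((d : ℝ) / 2)) := by
      rw [Real.sqrt_eq_rpow, one_div, ← Real.rpow_neg ht0.le, ← Real.rpow_natCast,
        ← Real.rpow_mul ht0.le]
      congr 1
      ring
    rw [h8, hρe]
    unfold rho
    have h9 : 1 ≤ Real.log t := by
      have h10 : Real.log (Real.exp 1) ≤ Real.log t := by
        refine Real.log_le_log (Real.exp_pos 1) ?_
        have := Real.exp_one_lt_d9
        linarith
      rwa [Real.log_exp] at h10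
    exact le_mul_of_one_le_right (by positivity) (Real.one_le_rpow h9 (by positivity))
  have hr2 : 128 * d * (r : ℝ) ^ 2 / t * ρ ≤ ε ^ 2 / (128 * C') := by
    have h5 : (r : ℝ) ^ 2 ≤ κ ^ 2 * XX d t ^ 2 := by
      rw [← mul_pow]
      exact pow_le_pow_left₀ hrr0.le hrX 2
    have h6 : XX d t ^ 2 * ρ = t := by rw [hρe]; exact XX_sq d (by linarith)
    calc 128 * d * (r : ℝ) ^ 2 / t * ρ ≤ 128 * d * (κ ^ 2 * XX d t ^ 2) / t * ρ := by gcongr
      _ = 128 * d * κ ^ 2 * (XX d t ^ 2 * ρ) / t := by ring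
      _ = 128 * d * κ ^ 2 := by rw [h6]; field_simp
      _ = _ := hκ2
  have hl2 : 16 * d * t / (l : ℝ) * ρ ≤ ε ^ 2 / (128 * C') := by
    have hY : t = YS d t * t ^ (1 / ((d : ℝ) + 2)) := by
      unfold YS
      rw [← Real.rpow_add ht0, ← add_div]
      have : ((d : ℝ) + 1 + 1) / (d + 2) = 1 := by
        rw [div_eq_one_iff_eq (by positivity)]
        ring
      rw [this, Real.rpow_one]
    have hYpos : 0 < YS d t := by unfold YS; positivity
    have h5 : t / (l : ℝ) ≤ t ^ (1 / ((d : ℝ) + 2)) / c₀ := by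
      rw [div_le_div_iff₀ hlr0 hc₀]
      calc t * c₀ = t ^ (1 / ((d : ℝ) + 2)) * (c₀ * YS d t) := by
            nth_rewrite 1 [hY]
            ring
        _ ≤ t ^ (1 / ((d : ℝ) + 2)) * l := mul_le_mul_of_nonneg_left hlY (by positivity)
    calc 16 * d * t / (l : ℝ) * ρ = 16 * d * ρ * (t / l) := by ring
      _ ≤ 16 * d * ρ * (t ^ (1 / ((d : ℝ) + 2)) / c₀) :=
          mul_le_mul_of_nonneg_left h5 (by positivity)
      _ = 16 * d / c₀ * (ρ * t ^ (1 / ((d : ℝ) + 2))) := by ring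
      _ ≤ 16 * d / c₀ * (ε ^ 2 * c₀ / (16 * d * (128 * C'))) := by
          refine mul_le_mul_of_nonneg_left ?_ (by positivity)
          rw [hρe]
          exact h1.trans hc3
      _ = _ := by field_simp
  -- the main inequality
  obtain ⟨S, hS⟩ : ∃ S : ℝ, S = ∑ v, stirExp (nnRate d L) t (fun g => DR g Finset.univ
        (ds (bl (blk (phi d L) l) v) (bl (blk (phi d L) r) v))) := ⟨_, rfl⟩
  have hmain := main_D (J := nnRate d L) nn_nonneg (blk (phi d L) r) (blk (phi d L) l)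
    (refine_blk hlr) (1 / (16 * d * (r : ℝ) ^ 2)) (by positivity)
    (fun f => form_blk hd hr f) (4 * d * (L : ℝ) ^ d / l) (cross hL hl hlL) t ht0 μ hμ0 hμ3
  rw [← hS] at hmain ⊢
  have hZ' := hZ L t ht4 htL
  have hcb := count_blocks d hl hlL
  have h5 : Real.exp (μ * (9 / 32) * S) ≤ Real.exp ((L : ℝ) ^ d * (2 / l) ^ d +
      (C * (L : ℝ) ^ d * rho d t + μ ^ 2 * (8 * Fintype.card (Fin d → ZMod L) /
        (1 / (16 * d * (r : ℝ) ^ 2) * t) + 4 * t * (4 * d * (L : ℝ) ^ d / l)))) := by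
    refine hmain.trans ?_
    rw [Real.exp_add, Real.exp_add]
    refine mul_le_mul hcb (mul_le_mul_of_nonneg_right hZ' (Real.exp_pos _).le) ?_
      (Real.exp_pos _).le
    refine mul_nonneg ?_ (Real.exp_pos _).le
    rw [← Pool.Agent.Y664.CN.t_TR (Fin d → ZMod L) (nnRate d L) 2 (t / 2)]
    exact Finset.sum_nonneg fun g _ => mul_nonneg (law_nonneg nn_nonneg (by linarith) g)
      (by positivity)
  rw [Real.exp_le_exp, card_tor, ← hρe] at h5
  have h6 : 8 * (L : ℝ) ^ d / (1 / (16 * d * (r : ℝ) ^ 2) * t) + 4 * t * (4 * d * (L : ℝ) ^ d / l) =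
      (L : ℝ) ^ d * (128 * d * (r : ℝ) ^ 2 / t + 16 * d * t / l) := by
    field_simp
    ring
  rw [h6] at h5
  have h7 : μ ^ 2 * ((L : ℝ) ^ d * (128 * d * (r : ℝ) ^ 2 / t + 16 * d * t / l)) ≤
      (L : ℝ) ^ d * (C' * ρ) := by
    have h8 : μ ^ 2 = 64 * C' ^ 2 * ρ / ε ^ 2 * ρ := by
      rw [hμ]
      field_simp
      ring
    have h9 : ρ * (128 * d * (r : ℝ) ^ 2 / t + 16 * d * t / l) ≤ ε ^ 2 / (64 * C') := by
      have : ε ^ 2 / (64 * C') = ε ^ 2 / (128 * C') + ε ^ 2 / (128 * C') := by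
        field_simp
        ring
      rw [this]
      linarith
    calc μ ^ 2 * ((L : ℝ) ^ d * (128 * d * (r : ℝ) ^ 2 / t + 16 * d * t / l)) =
          (L : ℝ) ^ d * (64 * C' ^ 2 * ρ / ε ^ 2) *
            (ρ * (128 * d * (r : ℝ) ^ 2 / t + 16 * d * t / l)) := by rw [h8]; ring
      _ ≤ (L : ℝ) ^ d * (64 * C' ^ 2 * ρ / ε ^ 2) * (ε ^ 2 / (64 * C')) :=
          mul_le_mul_of_nonneg_left h9 (by positivity)
      _ = _ := by field_simp
  have h8 : (L : ℝ) ^ d * (2 / l) ^ d ≤ (L : ℝ) ^ d * ρ := mul_le_mul_of_nonneg_left hsq hN.le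
  have h9 : μ * (9 / 32) * S ≤ (L : ℝ) ^ d * (2 * C' * ρ) := by
    have : (L : ℝ) ^ d * (2 * C' * ρ) = (L : ℝ) ^ d * ρ + C * (L : ℝ) ^ d * ρ +
        (L : ℝ) ^ d * (C' * ρ) := by rw [hC']; ring
    rw [this]
    linarith
  have h10 : μ * (9 / 32) * S = (9 / 4 * (C' * ρ / ε)) * S := by
    rw [hμ]
    ring
  rw [h10] at h9
  have h11 : (9 / 4 * (C' * ρ / ε)) * S ≤ (9 / 4 * (C' * ρ / ε)) * (ε * (L : ℝ) ^ d) := by
    refine h9.trans ?_
    have h12 : (9 / 4 * (C' * ρ / ε)) * (ε * (L : ℝ) ^ d) = 9 / 4 * ((L : ℝ) ^ d * (C' * ρ)) := by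
      field_simp
    rw [h12]
    have : 0 < (L : ℝ) ^ d * (C' * ρ) := by positivity
    linarith
  exact le_of_mul_le_mul_left h11 (by positivity)

end Pool.Agent.Helper47K9.SH
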